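import Mathlib

/-!
Flags with even levels.
-/

set_option autoImplicit false

namespace H28PM

open Finset

/-- index of the first coordinate equal to `1` -/
def lev : ∀ s : ℕ, (Fin s → ZMod 2) → ℕ
  | 0, _ => 0
  | s + 1, v => if v 0 = 1 then 0 else lev s (fun i => v i.succ) + 1

/-- value at a natural index -/
def at' {s : ℕ} (v : Fin s → ZMod 2) (m : ℕ) : ZMod 2 := if h : m < s then v ⟨m, h⟩ else 0

lemma zmod2_ne_zero {a : ZMod 2} (h : a ≠ 0) : a = 1 := by
  revert h; revert a; decide

lemma zmod2_ne_one {a : ZMod 2} (h : a ≠ 1) : a = 0 := by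
  revert h; revert a; decide

lemma at_succ {s : ℕ} (v : Fin (s + 1) → ZMod 2) (m : ℕ) :
    at' v (m + 1) = at' (fun i => v i.succ) m := by
  unfold at'
  by_cases h : m < s
  · rw [dif_pos (by omega), dif_pos h]
    rfl
  · rw [dif_neg (by omega), dif_neg h]

lemma at_zero {s : ℕ} (v : Fin (s + 1) → ZMod 2) : at' v 0 = v 0 := by
  unfold at'
  rw [dif_pos (by omega)]
  rfl

lemma at_lev (s : ℕ) : ∀ v : Fin s → ZMod 2, v ≠ 0 → at' v (lev s v) = 1 := by
  induction s with
  | zero =>
    intro v hv
    exact absurd (Subsingleton.elim v 0) hv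
  | succ s ih =>
    intro v hv
    unfold lev
    split_ifs with h
    · rw [at_zero, h]
    · rw [at_succ]
      apply ih
      intro h0
      apply hv
      funext i
      refine Fin.cases ?_ (fun j => ?_) i
      · exact zmod2_ne_one h
      · exact congrFun h0 j

lemma at_lt_lev (s : ℕ) : ∀ (v : Fin s → ZMod 2) (m : ℕ), m < lev s v → at' v m = 0 := by
  induction s with
  | zero =>
    intro v m hm
    exact absurd hm (by unfold lev; omega)
  | succ s ih =>
    intro v m hm
    unfold lev at hm
    split_ifs at hm with h
    · omega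
    · rcases m with _ | m
      · rw [at_zero]; exact zmod2_ne_one h
      · rw [at_succ]
        exact ih _ m (by omega)

lemma even_count {ι : Type*} (S : Finset ι) (g : ι → ZMod 2) (h : ∑ j ∈ S, g j = 0) :
    Even (S.filter (fun j => g j = 1)).card := by
  classical
  have h1 : ∑ j ∈ S, g j = ((S.filter (fun j => g j = 1)).card : ZMod 2) := by
    rw [← Finset.sum_boole]
    refine Finset.sum_congr rfl fun j _ => ?_
    by_cases hj : g j = 1
    · rw [if_pos hj, hj]
    · rw [if_neg hj, zmod2_ne_one hj]
  rw [h] at h1
  exact (ZMod.natCast_eq_zero_iff_even).mp h1.symm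

lemma exists_functional (s : ℕ) {ι : Type*} (S : Finset ι)
    (v : ι → (Fin (s + 1) → ZMod 2)) (hS : Even S.card) (hv : ∀ j ∈ S, v j ≠ 0) :
    ∃ β : (Fin (s + 1) → ZMod 2) →ₗ[ZMod 2] ZMod 2, β ≠ 0 ∧ ∑ j ∈ S, β (v j) = 0 := by
  rcases Nat.eq_zero_or_pos s with hs | hs
  · subst hs
    refine ⟨LinearMap.proj 0, ?_, ?_⟩
    · intro h
      have := congrArg (fun f => f (fun _ => (1 : ZMod 2))) h
      simp at this
    · have h1 : ∀ j ∈ S, (LinearMap.proj 0 : (Fin 1 → ZMod 2) →ₗ[ZMod 2] ZMod 2) (v j) = 1 := by
        intro j hj
        rw [LinearMap.proj_apply]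
        apply zmod2_ne_zero
        intro h0
        apply hv j hj
        funext i
        have hi : i = 0 := by apply Fin.ext; have := i.isLt; simp only [Fin.val_zero]; omega
        rw [hi]
        exact h0
      rw [Finset.sum_congr rfl h1]
      simp only [Finset.sum_const, nsmul_eq_mul, mul_one]
      exact (ZMod.natCast_eq_zero_iff_even).mpr hS
  · have hlt : (Submodule.span (ZMod 2) {∑ j ∈ S, v j}) < ⊤ := by
      rw [lt_top_iff_ne_top]
      intro h
      have h1 := finrank_span_le_card (R := ZMod 2) ({∑ j ∈ S, v j} : Set (Fin (s + 1) → ZMod 2))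
      rw [h, finrank_top, Module.finrank_fin_fun] at h1
      simp at h1
      omega
    obtain ⟨β, hβ, hle⟩ := Submodule.exists_le_ker_of_lt_top _ hlt
    refine ⟨β, hβ, ?_⟩
    rw [← map_sum]
    exact hle (Submodule.mem_span_singleton_self _)

lemma lev_cons (s : ℕ) (a : ZMod 2) (u : Fin s → ZMod 2) :
    lev (s + 1) (Fin.cons a u : Fin (s + 1) → ZMod 2) = if a = 1 then 0 else lev s u + 1 := by
  conv_lhs => unfold lev
  rfl

/-- For an even-size family of nonzero vectors there is a basis such that every level is even. -/
theorem exists_flag (s : ℕ) : ∀ {ι : Type} (S : Finset ι) (v : ι → (Fin s → ZMod 2)),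
    Even S.card → (∀ j ∈ S, v j ≠ 0) →
    ∃ φ : (Fin s → ZMod 2) ≃ₗ[ZMod 2] (Fin s → ZMod 2),
      ∀ i, Even (S.filter (fun j => lev s (φ (v j)) = i)).card := by
  induction s with
  | zero =>
    intro ι S v hS hv
    have hS0 : S = ∅ := by
      rw [Finset.eq_empty_iff_forall_notMem]
      intro j hj
      exact hv j hj (Subsingleton.elim _ _)
    refine ⟨LinearEquiv.refl _ _, fun i => ?_⟩
    rw [hS0, Finset.filter_empty, Finset.card_empty]
    exact Even.zero
  | succ s ih =>
    intro ι S v hS hv
    classical
    obtain ⟨β, hβ, hsum⟩ := exists_functional s S v hS hv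
    -- the kernel
    have hfin : Module.finrank (ZMod 2) (LinearMap.ker β) = s := by
      have h1 := Module.Dual.finrank_ker_add_one_of_ne_zero (f := β) hβ
      rw [Module.finrank_fin_fun] at h1
      omega
    let ψ : LinearMap.ker β ≃ₗ[ZMod 2] (Fin s → ZMod 2) :=
      LinearEquiv.ofFinrankEq _ _ (by rw [hfin, Module.finrank_fin_fun])
    obtain ⟨v0, hv0⟩ : ∃ v0, β v0 = 1 := by
      by_contra hcon
      push Not at hcon
      apply hβ
      ext1 i
      ext
      exact zmod2_ne_one (hcon _)
    -- projection to the kernel
    let pr : (Fin (s + 1) → ZMod 2) →ₗ[ZMod 2] LinearMap.ker β :=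
      LinearMap.codRestrict (LinearMap.ker β)
        (LinearMap.id - β.smulRight v0) (by
          intro w
          rw [LinearMap.mem_ker]
          simp [hv0])
    have hpr : ∀ w, β w = 0 → ((pr w : LinearMap.ker β) : Fin (s + 1) → ZMod 2) = w := by
      intro w hw
      simp [pr, hw]
    let S' := S.filter (fun j => β (v j) = 0)
    have hcount := even_count S (fun j => β (v j)) hsum
    have hS' : Even S'.card := by
      have h1 := Finset.card_filter_add_card_filter_not (s := S) (fun j => β (v j) = 1)
      have h2 : S.filter (fun j => ¬ β (v j) = 1) = S' := by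
        refine Finset.filter_congr fun j _ => ?_
        constructor
        · exact zmod2_ne_one
        · intro h; rw [h]; decide
      rw [h2] at h1
      rw [← h1] at hS
      exact (Nat.even_add.mp hS).mp hcount
    obtain ⟨φ', hφ'⟩ := ih S' (fun j => ψ (pr (v j))) hS' (by
      intro j hj
      have hj' := Finset.mem_filter.mp hj
      intro h0
      have h1 : pr (v j) = 0 := by
        have := congrArg ψ.symm h0
        simpa using this
      apply hv j hj'.1
      rw [← hpr (v j) hj'.2, h1]
      rfl)
    let L : (Fin (s + 1) → ZMod 2) →ₗ[ZMod 2] (Fin (s + 1) → ZMod 2) :=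
      { toFun := fun w => Fin.cons (β w) (φ' (ψ (pr w)))
        map_add' := by
          intro w w'
          funext i
          refine Fin.cases ?_ (fun j => ?_) i
          · simp
          · simp
        map_smul' := by
          intro t w
          funext i
          refine Fin.cases ?_ (fun j => ?_) i
          · simp
          · simp }
    have hL : Function.Injective L := by
      rw [← LinearMap.ker_eq_bot, LinearMap.ker_eq_bot']
      intro w hw
      have h0 : β w = 0 := by
        have := congrFun hw 0
        simpa [L] using this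
      have h1 : φ' (ψ (pr w)) = 0 := by
        funext j
        have := congrFun hw j.succ
        simpa [L] using this
      have h2 : pr w = 0 := by
        simpa using h1
      rw [← hpr w h0, h2]
      rfl
    refine ⟨LinearEquiv.ofInjectiveEndo L hL, fun i => ?_⟩
    have hval : ∀ w, (LinearEquiv.ofInjectiveEndo L hL) w = Fin.cons (β w) (φ' (ψ (pr w))) :=
      fun w => rfl
    simp only [hval, lev_cons]
    rcases i with _ | i
    · have : S.filter (fun j => (if β (v j) = 1 then 0 else lev s (φ' (ψ (pr (v j)))) + 1) = 0)
          = S.filter (fun j => β (v j) = 1) := by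
        refine Finset.filter_congr fun j _ => ?_
        split_ifs with h
        · simp [h]
        · simp [h]
      rw [this]
      exact hcount
    · have : S.filter (fun j => (if β (v j) = 1 then 0 else lev s (φ' (ψ (pr (v j)))) + 1) = i + 1)
          = S'.filter (fun j => lev s (φ' (ψ (pr (v j)))) = i) := by
        ext j
        simp only [Finset.mem_filter, S']
        constructor
        · rintro ⟨h1, h2⟩
          split_ifs at h2 with h
          exact ⟨⟨h1, zmod2_ne_one h⟩, by omega⟩
        · rintro ⟨⟨h1, h2⟩, h3⟩
          refine ⟨h1, ?_⟩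
          rw [if_neg (by rw [h2]; decide), h3]
      rw [this]
      exact hφ' i

end H28PM
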