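import Pool.Agent.Lib_helper28.PM.Mix3

/-!
Bad configurations cancel: if `mixE ≠ 0` then there is a liftable configuration.
-/

set_option autoImplicit false

namespace H28PM

open Finset

variable {ι : Type*} [DecidableEq ι] [Fintype ι]

lemma zmod2_cases (a : ZMod 2) : a = 0 ∨ a = 1 := by
  fin_cases a
  · exact Or.inl rfl
  · exact Or.inr rfl

omit [DecidableEq ι] [Fintype ι] in
lemma perm_apply_inv (ρ : Equiv.Perm ι) (j : ι) : ρ (ρ⁻¹ j) = j := ρ.apply_symm_apply j

/-- Fredholm alternative over `ZMod 2` for a permutation. -/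
lemma fredholm (ρ : Equiv.Perm ι) (b : ι → ZMod 2)
    (h : ¬ ∃ a : ι → ZMod 2, ∀ j, a (ρ j) = a j + b j) :
    ∃ w : ι → ZMod 2, (∀ j, w (ρ j) = w j) ∧ ∑ j, w j * b j = 1 := by
  let δ : (ι → ZMod 2) →ₗ[ZMod 2] (ι → ZMod 2) :=
    { toFun := fun a j => a (ρ j) + a j
      map_add' := by intro a c; funext j; simp only [Pi.add_apply]; ring
      map_smul' := by
        intro t a; funext j
        simp only [Pi.smul_apply, smul_eq_mul, RingHom.id_apply]; ring }
  have hb : b ∉ LinearMap.range δ := by
    rintro ⟨a, ha⟩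
    apply h
    refine ⟨a, fun j => ?_⟩
    have : a (ρ j) + a j = b j := congrFun ha j
    rw [← this, add_comm (a (ρ j)), ← add_assoc, CharTwo.add_self_eq_zero, zero_add]
  obtain ⟨φ, hφb, hφ⟩ := Submodule.exists_le_ker_of_notMem hb
  refine ⟨fun i => φ (fun j => if i = j then 1 else 0), ?_, ?_⟩
  · intro j
    have h1 : φ (δ (fun l => if ρ j = l then 1 else 0)) = 0 := by
      have := hφ (LinearMap.mem_range_self δ (fun l => if ρ j = l then 1 else 0))
      exact this
    have h2 : δ (fun l => if ρ j = l then (1 : ZMod 2) else 0)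
        = (fun l => if j = l then 1 else 0) + (fun l => if ρ j = l then 1 else 0) := by
      funext l
      show (if ρ j = ρ l then (1 : ZMod 2) else 0) + (if ρ j = l then 1 else 0) = _
      simp [ρ.injective.eq_iff]
    rw [h2, map_add] at h1
    exact (CharTwo.add_eq_zero.mp h1).symm
  · have h1 : φ b = ∑ i, b i • φ (fun j => if i = j then 1 else 0) :=
      LinearMap.pi_apply_eq_sum_univ φ b
    have h2 : φ b = 1 := by
      rcases zmod2_cases (φ b) with h3 | h3
      · exact absurd h3 hφb
      · exact h3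
    refine Eq.trans ?_ h2
    refine Eq.trans ?_ h1.symm
    refine Finset.sum_congr rfl fun i _ => ?_
    rw [smul_eq_mul, mul_comm]

/-- sign of an element of `ZMod 2` -/
def sg (a : ZMod 2) : ℤ := if a = 1 then -1 else 1

lemma sg_add (a c : ZMod 2) : sg (a + c) = sg a * sg c := by
  rcases zmod2_cases a with rfl | rfl <;> rcases zmod2_cases c with rfl | rfl <;> decide

omit [Fintype ι] in
lemma sg_sum (s : Finset ι) (f : ι → ZMod 2) : sg (∑ i ∈ s, f i) = ∏ i ∈ s, sg (f i) := by
  induction s using Finset.induction_on with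
  | empty => simp [sg]
  | insert a s ha ih => rw [Finset.sum_insert ha, Finset.prod_insert ha, sg_add, ih]

/-- `ρ` on the set `w = 1`, identity elsewhere -/
def turn (ρ : Equiv.Perm ι) (w : ι → ZMod 2) (hw : ∀ j, w (ρ j) = w j) : Equiv.Perm ι where
  toFun j := if w j = 1 then ρ j else j
  invFun j := if w j = 1 then ρ⁻¹ j else j
  left_inv := by
    intro j
    by_cases h : w j = 1
    · simp [h, hw]
    · simp [h]
  right_inv := by
    intro j
    have hw' : w (ρ⁻¹ j) = w j := by
      have := hw (ρ⁻¹ j)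
      rw [perm_apply_inv] at this
      exact this.symm
    by_cases h : w j = 1
    · simp only [h, if_true]
      rw [if_pos (by rw [hw']; exact h)]
      simp
    · simp [h]

omit [DecidableEq ι] [Fintype ι] in
lemma inv_w (ρ : Equiv.Perm ι) (w : ι → ZMod 2) (hw : ∀ j, w (ρ j) = w j) (j : ι) :
    w (ρ⁻¹ j) = w j := by
  have := hw (ρ⁻¹ j)
  rw [perm_apply_inv] at this
  exact this.symm

/-- reverse `ρ` on the set `w = 1` -/
def flip (ρ : Equiv.Perm ι) (w : ι → ZMod 2) (hw : ∀ j, w (ρ j) = w j) : Equiv.Perm ι :=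
  ρ * (turn ρ w hw)⁻¹ * (turn ρ w hw)⁻¹

omit [DecidableEq ι] [Fintype ι] in
lemma flip_apply (ρ : Equiv.Perm ι) (w : ι → ZMod 2) (hw : ∀ j, w (ρ j) = w j) (j : ι) :
    flip ρ w hw j = if w j = 1 then ρ⁻¹ j else ρ j := by
  have h1 : ∀ j, (turn ρ w hw)⁻¹ j = if w j = 1 then ρ⁻¹ j else j := fun _ => rfl
  unfold flip
  rw [Equiv.Perm.mul_apply, Equiv.Perm.mul_apply, h1 j]
  by_cases h : w j = 1
  · rw [if_pos h, if_pos h, h1, if_pos (by rw [inv_w ρ w hw]; exact h)]
    simp
  · rw [if_neg h, if_neg h, h1, if_neg h]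

lemma sign_flip (ρ : Equiv.Perm ι) (w : ι → ZMod 2) (hw : ∀ j, w (ρ j) = w j) :
    Equiv.Perm.sign (flip ρ w hw) = Equiv.Perm.sign ρ := by
  unfold flip
  rw [map_mul, map_mul, mul_assoc, ← map_mul]
  simp

/-- the set of witnesses of badness -/
def wit (b : ι → ZMod 2) (ρ : Equiv.Perm ι) : Set (ι → ZMod 2) :=
  {w | (∀ j, w (ρ j) = w j) ∧ ∑ j, w j * b j = 1}

omit [DecidableEq ι] in
lemma wit_flip (b : ι → ZMod 2) (ρ : Equiv.Perm ι) (w : ι → ZMod 2)
    (hw : ∀ j, w (ρ j) = w j) : wit b (flip ρ w hw) = wit b ρ := by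
  ext v
  unfold wit
  constructor
  · rintro ⟨h1, h2⟩
    refine ⟨fun j => ?_, h2⟩
    by_cases h : w j = 1
    · have := h1 (ρ j)
      rw [flip_apply, if_pos (by rw [hw]; exact h)] at this
      simpa using this.symm
    · have := h1 j
      rwa [flip_apply, if_neg h] at this
  · rintro ⟨h1, h2⟩
    refine ⟨fun j => ?_, h2⟩
    rw [flip_apply]
    split_ifs
    · exact inv_w ρ v h1 j
    · exact h1 j

variable {K : Type*} [Fintype K] [DecidableEq K] [AddCommGroup K]

/-- If the alternating sum is nonzero then there is a liftable configuration. -/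
theorem exists_good {x : ι → K} {χ : ι → K → ℤ} (h : Data x χ) (h2 : ∀ r : K, r + r = 0)
    (b : ι → ZMod 2) (hb : ∀ j, χ j (x j) = sg (b j))
    (hne : mixE ι (fun j => pauli (x j) (χ j)) ≠ 0) :
    ∃ (f : ι → K) (ρ : Equiv.Perm ι) (a : ι → ZMod 2), Function.Injective f ∧
      (∀ j, f (ρ j) = f j + x j) ∧ (∀ j, a (ρ j) = a j + b j) := by
  classical
  by_contra hcon
  push Not at hcon
  apply hne
  -- rewrite the sum
  let P : Finset ((ι → K) × Equiv.Perm ι) :=
    Finset.univ.filter (fun p => Function.Injective p.1 ∧ ∀ j, p.1 (p.2 j) = p.1 j + x j)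
  let T : (ι → K) × Equiv.Perm ι → ℤ :=
    fun p => ((Equiv.Perm.sign p.2 : ℤˣ) : ℤ) * ∏ j, χ j (p.1 j)
  have hmix : mixE ι (fun j => pauli (x j) (χ j)) = ∑ p ∈ P, T p := by
    unfold mixE
    simp only [Finset.mul_sum]
    rw [Finset.sum_comm]
    -- noninjective `f` contribute zero
    have hf : ∀ f : ι → K, ∑ σ : Equiv.Perm ι, ((Equiv.Perm.sign σ : ℤˣ) : ℤ) *
        ∏ j, pauli (x j) (χ j) (f j) (f (σ j))
        = ∑ σ : Equiv.Perm ι, if (f, σ) ∈ P then T (f, σ) else 0 := by
      intro f
      by_cases hinj : Function.Injective f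
      · refine Finset.sum_congr rfl fun σ _ => ?_
        by_cases hσ : ∀ j, f (σ j) = f j + x j
        · rw [if_pos (by simp [P, hinj, hσ])]
          simp only [T]
          congr 1
          refine Finset.prod_congr rfl fun j _ => ?_
          rw [pauli_apply, if_pos (hσ j)]
        · rw [if_neg (by simp only [P, Finset.mem_filter, Finset.mem_univ, true_and]
                         exact fun h => hσ h.2)]
          push Not at hσ
          obtain ⟨j, hj⟩ := hσ
          rw [Finset.prod_eq_zero (Finset.mem_univ j) (by rw [pauli_apply, if_neg hj]), mul_zero]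
      · have hz : ∑ σ : Equiv.Perm ι, (if (f, σ) ∈ P then T (f, σ) else 0) = 0 := by
          refine Finset.sum_eq_zero fun σ _ => ?_
          rw [if_neg (by simp only [P, Finset.mem_filter, Finset.mem_univ, true_and]
                         exact fun h => hinj h.1)]
        rw [hz]
        rw [Function.Injective] at hinj
        push Not at hinj
        obtain ⟨p, q, hpq, hne⟩ := hinj
        have hdet : Matrix.det (Matrix.of fun l j => pauli (x j) (χ j) (f j) (f l)) = 0 :=
          Matrix.det_zero_of_row_eq hne (by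
            funext j
            simp only [Matrix.of_apply]
            rw [hpq])
        rw [Matrix.det_apply'] at hdet
        simp only [Matrix.of_apply] at hdet
        exact hdet
    rw [Finset.sum_congr rfl (fun f _ => hf f)]
    rw [← Fintype.sum_prod_type' (f := fun f σ => if (f, σ) ∈ P then T (f, σ) else 0)]
    rw [← Finset.sum_filter]
    refine Finset.sum_congr ?_ fun _ _ => rfl
    ext p
    simp
  rw [hmix]
  -- every element of `P` has a witness
  have hwit : ∀ p ∈ P, (wit b p.2).Nonempty := by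
    intro p hp
    simp only [P, Finset.mem_filter, Finset.mem_univ, true_and] at hp
    have : ¬ ∃ a : ι → ZMod 2, ∀ j, a (p.2 j) = a j + b j := by
      rintro ⟨a, ha⟩
      obtain ⟨j, hj⟩ := hcon p.1 p.2 a hp.1 hp.2
      exact hj (ha j)
    obtain ⟨w, hw1, hw2⟩ := fredholm p.2 b this
    exact ⟨w, hw1, hw2⟩
  let W : Set (ι → ZMod 2) → (ι → ZMod 2) := fun s => if h : s.Nonempty then h.some else 0
  have hW : ∀ p ∈ P, W (wit b p.2) ∈ wit b p.2 := by
    intro p hp
    simp only [W]
    rw [dif_pos (hwit p hp)]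
    exact (hwit p hp).some_mem
  let g : ∀ p ∈ P, (ι → K) × Equiv.Perm ι := fun p hp =>
    (fun j => p.1 (turn p.2 (W (wit b p.2)) (hW p hp).1 j),
      flip p.2 (W (wit b p.2)) (hW p hp).1)
  have hturn : ∀ p (hp : p ∈ P) (j : ι), turn p.2 (W (wit b p.2)) (hW p hp).1 j
      = if W (wit b p.2) j = 1 then p.2 j else j := fun p hp j => rfl
  have hg1 : ∀ p (hp : p ∈ P) (j : ι), (g p hp).1 j
      = if W (wit b p.2) j = 1 then p.1 j + x j else p.1 j := by
    intro p hp j
    have hp' := hp
    simp only [P, Finset.mem_filter, Finset.mem_univ, true_and] at hp'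
    simp only [g]
    rw [hturn p hp]
    split_ifs with h
    · exact hp'.2 j
    · rfl
  have hgmem : ∀ p (hp : p ∈ P), g p hp ∈ P := by
    intro p hp
    have hp' := hp
    simp only [P, Finset.mem_filter, Finset.mem_univ, true_and] at hp'
    have hw := (hW p hp).1
    simp only [P, Finset.mem_filter, Finset.mem_univ, true_and]
    refine ⟨hp'.1.comp (Equiv.injective _), fun j => ?_⟩
    have e2 : (g p hp).2 j = if W (wit b p.2) j = 1 then p.2⁻¹ j else p.2 j :=
      flip_apply _ _ hw j
    rw [e2, hg1 p hp, hg1 p hp]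
    by_cases h1 : W (wit b p.2) j = 1
    · rw [if_pos h1, if_pos h1, inv_w _ _ hw, if_pos h1, add_assoc, h2, add_zero]
      have := hp'.2 (p.2⁻¹ j)
      rw [perm_apply_inv] at this
      exact this.symm
    · rw [if_neg h1, if_neg h1, hw, if_neg h1]
      exact hp'.2 j
  have hwitg : ∀ p (hp : p ∈ P), wit b (g p hp).2 = wit b p.2 := fun p hp =>
    wit_flip b p.2 _ (hW p hp).1
  have hgg : ∀ p (hp : p ∈ P), g (g p hp) (hgmem p hp) = p := by
    intro p hp
    have hw := (hW p hp).1
    have e3 : ∀ j, (g p hp).2 j = if W (wit b p.2) j = 1 then p.2⁻¹ j else p.2 j :=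
      fun j => flip_apply _ _ hw j
    apply Prod.ext
    · funext j
      rw [hg1 (g p hp) (hgmem p hp) j, hwitg p hp, hg1 p hp]
      by_cases h1 : W (wit b p.2) j = 1
      · rw [if_pos h1, if_pos h1, add_assoc, h2, add_zero]
      · rw [if_neg h1, if_neg h1]
    · apply Equiv.ext
      intro j
      have e4 : (g (g p hp) (hgmem p hp)).2 j
          = if W (wit b (g p hp).2) j = 1 then (g p hp).2⁻¹ j else (g p hp).2 j :=
        flip_apply _ _ (hW _ (hgmem p hp)).1 j
      rw [e4, hwitg p hp]
      by_cases h1 : W (wit b p.2) j = 1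
      · rw [if_pos h1]
        rw [Equiv.Perm.inv_eq_iff_eq, e3, hw, if_pos h1]
        simp
      · rw [if_neg h1, e3, if_neg h1]
  have hT : ∀ p (hp : p ∈ P), T (g p hp) = - T p := by
    intro p hp
    have hw := (hW p hp)
    simp only [T]
    have e1 : Equiv.Perm.sign (g p hp).2 = Equiv.Perm.sign p.2 := sign_flip _ _ _
    rw [e1]
    have e2 : ∀ j, χ j ((g p hp).1 j) = χ j (p.1 j) * sg (W (wit b p.2) j * b j) := by
      intro j
      rw [hg1 p hp]
      rcases zmod2_cases (W (wit b p.2) j) with h1 | h1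
      · rw [h1, if_neg (by decide), zero_mul]
        simp [sg]
      · rw [h1, if_pos rfl, one_mul, h.add, hb]
    rw [Finset.prod_congr rfl (fun j _ => e2 j), Finset.prod_mul_distrib, ← sg_sum, hw.2]
    simp [sg]
  have hpair : ∑ p ∈ P, T p = 0 := by
    refine Finset.sum_involution g ?_ ?_ hgmem hgg
    · intro p hp
      rw [hT p hp]; ring
    · intro p hp hTp heq
      have := hT p hp
      rw [heq] at this
      apply hTp
      linarith
  exact hpair

end H28PM
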