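import Pool.Agent.Lib_helper28.PM.Flag
import Pool.Agent.Lib_helper28.PM.Inv

/-!
Perfect matchings of `F_2^s` with prescribed sums.
-/

set_option autoImplicit false

namespace H28PM

open Finset

lemma at_add {s : ℕ} (v w : Fin s → ZMod 2) (m : ℕ) : at' (v + w) m = at' v m + at' w m := by
  unfold at'
  split_ifs
  · rfl
  · rw [add_zero]

lemma lev_lt (s : ℕ) (v : Fin s → ZMod 2) (hv : v ≠ 0) : lev s v < s := by
  by_contra h
  have h1 := at_lev s v hv
  unfold at' at h1
  rw [dif_neg h] at h1
  exact absurd h1 (by decide)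

/-- the normalised case: all levels are even -/
theorem main_flag (k : ℕ) (v : Fin (2 ^ k) → (Fin (k + 1) → ZMod 2)) (hv : ∀ i, v i ≠ 0)
    (hsum : ∑ i, v i = 0)
    (hlev : ∀ i, Even (Finset.univ.filter (fun j => lev (k + 1) (v j) = i)).card) :
    ∃ a b : Fin (2 ^ k) → (Fin (k + 1) → ZMod 2),
      Function.Bijective (Sum.elim a b) ∧ ∀ i, a i + b i = v i := by
  classical
  -- the data
  let l : Fin (2 ^ k) → ℕ := fun j => lev (k + 1) (v j)
  let x : Fin (2 ^ k) → (Fin k → ZMod 2) := fun j i => v j i.succ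
  let bb : Fin (2 ^ k) → ZMod 2 := fun j => 1 + v j 0
  let χ : Fin (2 ^ k) → (Fin k → ZMod 2) → ℤ :=
    fun j r => sg (at' (Fin.cons 0 r : Fin (k + 1) → ZMod 2) (l j))
  have hat0 : ∀ r : Fin k → ZMod 2, at' (Fin.cons 0 r : Fin (k + 1) → ZMod 2) 0 = 0 := by
    intro r
    rw [at_zero]
    rfl
  have hatx : ∀ (u : Fin (2 ^ k)) (m : ℕ), m ≠ 0 →
      at' (Fin.cons 0 (x u) : Fin (k + 1) → ZMod 2) m = at' (v u) m := by
    intro u m hm
    obtain ⟨m, rfl⟩ := Nat.exists_eq_succ_of_ne_zero hm
    rw [Nat.succ_eq_add_one, at_succ, at_succ]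
    rfl
  have hcons : ∀ r s : Fin k → ZMod 2, (Fin.cons 0 (r + s) : Fin (k + 1) → ZMod 2)
      = (Fin.cons 0 r : Fin (k + 1) → ZMod 2) + (Fin.cons 0 s : Fin (k + 1) → ZMod 2) := by
    intro r s
    funext i
    refine Fin.cases ?_ (fun j => ?_) i
    · simp
    · simp
  have hD : Data x χ := by
    constructor
    · intro j r s
      simp only [χ]
      rw [hcons, at_add, sg_add]
    · intro j r
      simp only [χ, sg]
      split_ifs
      · right; rfl
      · left; rfl
  have hsg0 : sg 0 = 1 := by decide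
  have hb : ∀ u w, χ w (x u) = if l w = 0 then 1 else sg (at' (v u) (l w)) := by
    intro u w
    simp only [χ]
    split_ifs with h
    · rw [h, hat0, hsg0]
    · rw [hatx u _ h]
  have hatl : ∀ u, at' (v u) (l u) = 1 := fun u => at_lev (k + 1) (v u) (hv u)
  have hpsi : ¬ (2 : ℤ) ^ (2 ^ k) ∣
      psi (fun u w => χ w (x u)) (Finset.univ : Finset (Fin (2 ^ k))) := by
    apply psi_not_dvd hD.b_pm l k (Fintype.card_fin _)
    · intro u w w' h
      simp only [hb, h]
    · intro u w h
      simp only [hb, h, if_true]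
    · intro u w h
      simp only [hb]
      split_ifs
      · rfl
      · rw [at_lt_lev (k + 1) (v u) (l w) h, hsg0]
    · intro u u' w h h'
      simp only [hb]
      rw [← h, hatl, h, ← h', hatl]
    · intro i _
      exact hlev i
  have hxsum : ∑ j, x j = 0 := by
    funext i
    have := congrFun hsum i.succ
    rw [Finset.sum_apply] at this
    rw [Finset.sum_apply]
    exact this
  have hχ : ∀ r, ∏ j, χ j r = 1 := by
    intro r
    simp only [χ]
    rw [← sg_sum]
    rw [Finset.sum_comp (fun m => at' (Fin.cons 0 r : Fin (k + 1) → ZMod 2) m) l]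
    rw [Finset.sum_eq_zero, hsg0]
    intro m _
    obtain ⟨t, ht⟩ := hlev m
    have : (Finset.univ.filter (fun j => l j = m)).card = t + t := ht
    rw [this, add_smul, CharTwo.add_self_eq_zero]
  have hne := hD.mixE_ne_zero k (by simp) (Fintype.card_fin _) hxsum hχ hpsi
  obtain ⟨f, ρ, a, hf, hρ, ha⟩ := exists_good hD
    (fun r => by funext i; exact CharTwo.add_self_eq_zero (r i)) bb (by
    intro j
    rw [hb]
    split_ifs with h
    · have h1 := hatl j
      rw [h, at_zero] at h1
      simp only [bb]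
      rw [h1]
      decide
    · rw [hatl]
      have h1 := at_lt_lev (k + 1) (v j) 0 (Nat.pos_of_ne_zero h)
      rw [at_zero] at h1
      simp only [bb]
      rw [h1, add_zero]) hne
  have hfb : Function.Bijective f := by
    rw [Fintype.bijective_iff_injective_and_card]
    refine ⟨hf, ?_⟩
    simp
  let A : Fin (2 ^ k) → (Fin (k + 1) → ZMod 2) := fun i => Fin.cons (a i) (f i)
  refine ⟨A, fun i => A i + v i, ?_, ?_⟩
  · rw [Fintype.bijective_iff_surjective_and_card]
    constructor
    · intro y
      obtain ⟨i, hi⟩ := hfb.2 (fun n => y n.succ)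
      by_cases h : y 0 = a i
      · refine ⟨Sum.inl i, ?_⟩
        simp only [Sum.elim_inl, A]
        funext n
        refine Fin.cases ?_ (fun m => ?_) n
        · rw [Fin.cons_zero, h]
        · rw [Fin.cons_succ, hi]
      · refine ⟨Sum.inr (ρ⁻¹ i), ?_⟩
        have hρi : ρ (ρ⁻¹ i) = i := perm_apply_inv ρ i
        have h1 := ha (ρ⁻¹ i)
        have h2 := hρ (ρ⁻¹ i)
        rw [hρi] at h1 h2
        simp only [Sum.elim_inr, A]
        funext n
        refine Fin.cases ?_ (fun m => ?_) n
        · rw [Pi.add_apply, Fin.cons_zero]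
          have h3 : v (ρ⁻¹ i) 0 = 1 + bb (ρ⁻¹ i) := by
            simp only [bb]
            rw [← add_assoc, CharTwo.add_self_eq_zero, zero_add]
          have h4 : y 0 = a i + 1 := by
            generalize y 0 = p at h ⊢
            generalize a i = q at h ⊢
            revert p q
            decide
          rw [h3, h4, h1]
          ring
        · rw [Pi.add_apply, Fin.cons_succ]
          have h5 := congrFun h2 m
          rw [Pi.add_apply] at h5
          have h6 := congrFun hi m
          rw [← h6, h5]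
    · simp only [Fintype.card_sum, Fintype.card_fin, Fintype.card_fun, ZMod.card]
      rw [pow_succ]; ring
  · intro i
    funext n
    simp only [Pi.add_apply]
    rw [← add_assoc, CharTwo.add_self_eq_zero, zero_add]

theorem main (k : ℕ) (hk : 1 ≤ k) (v : Fin (2 ^ k) → (Fin (k + 1) → ZMod 2)) (hv : ∀ i, v i ≠ 0)
    (hsum : ∑ i, v i = 0) :
    ∃ a b : Fin (2 ^ k) → (Fin (k + 1) → ZMod 2),
      Function.Bijective (Sum.elim a b) ∧ ∀ i, a i + b i = v i := by
  have heven : Even (Finset.univ : Finset (Fin (2 ^ k))).card := by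
    rw [Finset.card_univ, Fintype.card_fin]
    exact Nat.even_pow.mpr ⟨even_two, by omega⟩
  obtain ⟨φ, hφ⟩ := exists_flag (k + 1) Finset.univ v heven (fun j _ => hv j)
  obtain ⟨a, b, hab, h⟩ := main_flag k (fun i => φ (v i))
    (fun i h0 => hv i (by simpa using h0)) (by rw [← map_sum, hsum, map_zero]) hφ
  refine ⟨fun i => φ.symm (a i), fun i => φ.symm (b i), ?_, ?_⟩
  · have : Sum.elim (fun i => φ.symm (a i)) (fun i => φ.symm (b i))
        = φ.symm ∘ Sum.elim a b := by
      funext t
      rcases t with t | t <;> rfl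
    rw [this]
    exact φ.symm.bijective.comp hab
  · intro i
    rw [← map_add, h]
    simp

end H28PM
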