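import Mathlib

/-!
Alternating sums of products of traces (mixed discriminants).
-/

set_option autoImplicit false

namespace H28PM

open Finset

/-- `∑_σ sgn(σ) ∏_{cycles of σ} trace` written out. -/
def mixE (α : Type*) [Fintype α] [DecidableEq α] {K : Type*} [Fintype K]
    (M : α → Matrix K K ℤ) : ℤ :=
  ∑ σ : Equiv.Perm α, ((Equiv.Perm.sign σ : ℤˣ) : ℤ) *
    ∑ f : α → K, ∏ a, M a (f a) (f (σ a))

variable {K : Type*} [Fintype K] [DecidableEq K]

omit [DecidableEq K] in
lemma mixE_reindex {α β : Type*} [Fintype α] [DecidableEq α] [Fintype β] [DecidableEq β]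
    (e : α ≃ β) (M : β → Matrix K K ℤ) : mixE α (fun a => M (e a)) = mixE β M := by
  unfold mixE
  rw [← Equiv.sum_comp e.permCongr]
  refine Finset.sum_congr rfl fun σ _ => ?_
  rw [Equiv.Perm.sign_permCongr]
  congr 1
  rw [← Equiv.sum_comp (Equiv.arrowCongr e (Equiv.refl K))]
  refine Finset.sum_congr rfl fun f _ => ?_
  rw [← Equiv.prod_comp e]
  refine Finset.prod_congr rfl fun a _ => ?_
  simp [Equiv.arrowCongr, Equiv.permCongr_apply]

omit [DecidableEq K] in
lemma mixE_option {α : Type*} [Fintype α] [DecidableEq α] (N : Option α → Matrix K K ℤ) :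
    mixE (Option α) N = (N none).trace * mixE α (fun a => N (some a))
      - ∑ l : α, mixE α (Function.update (fun a => N (some a)) l (N none * N (some l))) := by
  unfold mixE
  rw [← Equiv.sum_comp Equiv.Perm.decomposeOption.symm, Fintype.sum_prod_type, Fintype.sum_option,
    sub_eq_add_neg]
  congr 1
  · -- fixed point
    rw [Finset.mul_sum]
    refine Finset.sum_congr rfl fun τ _ => ?_
    rw [Equiv.Perm.decomposeOption_symm_sign]
    rw [← mul_assoc, mul_comm (Matrix.trace _), mul_assoc]
    congr 1
    rw [← Equiv.sum_comp (Equiv.piOptionEquivProd (β := fun _ => K)).symm, Fintype.sum_prod_type,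
      Matrix.trace, Finset.sum_mul]
    refine Finset.sum_congr rfl fun r _ => ?_
    rw [Finset.mul_sum]
    refine Finset.sum_congr rfl fun g _ => ?_
    rw [Fintype.prod_option]
    simp [Equiv.piOptionEquivProd]
  · -- `none` is mapped to `some l`
    rw [← Finset.sum_neg_distrib]
    refine Finset.sum_congr rfl fun l _ => ?_
    rw [← Finset.sum_neg_distrib]
    refine Finset.sum_congr rfl fun τ _ => ?_
    have hsgn : Equiv.Perm.sign (Equiv.Perm.decomposeOption.symm (some l, τ))
        = - Equiv.Perm.sign τ := by
      simp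
    rw [hsgn, Units.val_neg, neg_mul]
    congr 2
    rw [← Equiv.sum_comp (Equiv.piOptionEquivProd (β := fun _ => K)).symm, Fintype.sum_prod_type]
    -- swap the value at `none` with the value at `l`
    let Φ : (K × (α → K)) ≃ (K × (α → K)) :=
      { toFun := fun p => (p.2 l, Function.update p.2 l p.1)
        invFun := fun p => (p.2 l, Function.update p.2 l p.1)
        left_inv := by
          rintro ⟨r, g⟩
          simp
        right_inv := by
          rintro ⟨r, g⟩
          simp }
    rw [← Fintype.sum_prod_type (f := fun p : K × (α → K) =>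
      ∏ a, N a ((Equiv.piOptionEquivProd (β := fun _ => K)).symm (p.1, p.2) a)
        ((Equiv.piOptionEquivProd (β := fun _ => K)).symm (p.1, p.2)
          ((Equiv.Perm.decomposeOption.symm (some l, τ)) a)))]
    rw [← Equiv.sum_comp Φ, Fintype.sum_prod_type, Finset.sum_comm]
    refine Finset.sum_congr rfl fun g _ => ?_
    -- now `f none = g l`, `f (some a) = update g l r a`
    have hval : ∀ (r : K) (a : α),
        ((Equiv.piOptionEquivProd (β := fun _ => K)).symm ((Φ (r, g)).1, (Φ (r, g)).2)
          ((Equiv.Perm.decomposeOption.symm (some l, τ)) (some a))) = g (τ a) := by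
      intro r a
      simp only [Equiv.Perm.decomposeOption_symm_apply, Equiv.Perm.mul_apply,
        Equiv.optionCongr_apply, Option.map_some]
      by_cases h : τ a = l
      · rw [h, Equiv.swap_apply_right]
        simp [Φ, Equiv.piOptionEquivProd]
      · rw [Equiv.swap_apply_of_ne_of_ne (by simp) (by simpa using h)]
        simp [Φ, Equiv.piOptionEquivProd, h]
    have hterm : ∀ r : K,
        (∏ a, N a ((Equiv.piOptionEquivProd (β := fun _ => K)).symm ((Φ (r, g)).1, (Φ (r, g)).2) a)
        ((Equiv.piOptionEquivProd (β := fun _ => K)).symm ((Φ (r, g)).1, (Φ (r, g)).2)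
          ((Equiv.Perm.decomposeOption.symm (some l, τ)) a)))
        = N none (g l) r * N (some l) r (g (τ l)) *
          ∏ a ∈ Finset.univ.erase l, N (some a) (g a) (g (τ a)) := by
      intro r
      rw [Fintype.prod_option, ← Finset.mul_prod_erase Finset.univ _ (Finset.mem_univ l)]
      rw [hval r l]
      rw [mul_assoc]
      congr 1
      · simp [Φ, Equiv.piOptionEquivProd]
      · congr 1
        · simp [Φ, Equiv.piOptionEquivProd]
        · refine Finset.prod_congr rfl fun a ha => ?_
          rw [hval r a]
          have : a ≠ l := Finset.ne_of_mem_erase ha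
          simp [Φ, Equiv.piOptionEquivProd, this]
    rw [Finset.sum_congr rfl (fun r _ => hterm r), ← Finset.sum_mul]
    rw [← Finset.mul_prod_erase Finset.univ _ (Finset.mem_univ l)]
    congr 1
    · rw [Function.update_self, Matrix.mul_apply]
    · refine Finset.prod_congr rfl fun a ha => ?_
      rw [Function.update_of_ne (Finset.ne_of_mem_erase ha)]

end H28PM
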