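import Pool.Agent.Lib_helper28.PM.Mix

/-!
The trace expansion of `mixE` over finsets.
-/

set_option autoImplicit false

namespace H28PM

open Finset

variable {ι : Type*} [DecidableEq ι]

/-- reindexing pairs (element, rest) -/
lemma sum_powerset_erase {A : Type*} [AddCommMonoid A] (R : Finset ι) (F : ι → Finset ι → A) :
    ∑ U ∈ R.powerset, ∑ l ∈ U, F l (U.erase l)
      = ∑ l ∈ R, ∑ U ∈ (R.erase l).powerset, F l U := by
  rw [Finset.sum_sigma', Finset.sum_sigma']
  refine Finset.sum_bij' (fun q _ => ⟨q.2, q.1.erase q.2⟩) (fun p _ => ⟨insert p.1 p.2, p.1⟩)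
      ?_ ?_ ?_ ?_ ?_
  · rintro ⟨U, l⟩ h
    simp only [Finset.mem_sigma, Finset.mem_powerset] at h ⊢
    exact ⟨h.1 h.2, Finset.erase_subset_erase _ h.1⟩
  · rintro ⟨l, U⟩ h
    simp only [Finset.mem_sigma, Finset.mem_powerset] at h ⊢
    refine ⟨?_, Finset.mem_insert_self _ _⟩
    intro x hx
    rcases Finset.mem_insert.mp hx with rfl | hx
    · exact h.1
    · exact Finset.mem_of_mem_erase (h.2 hx)
  · rintro ⟨U, l⟩ h
    simp only [Finset.mem_sigma, Finset.mem_powerset] at h
    simp [Finset.insert_erase h.2]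
  · rintro ⟨l, U⟩ h
    simp only [Finset.mem_sigma, Finset.mem_powerset] at h
    have hl : l ∉ U := fun h' => by simpa using h.2 h'
    simp [Finset.erase_insert hl]
  · rintro ⟨U, l⟩ h
    rfl

section Sym

variable {A : Type*} [Ring A]

/-- auxiliary: symmetrised product -/
def symAux (J : ι → A) : ℕ → Finset ι → A
  | 0, _ => 1
  | m + 1, S => ∑ j ∈ S, J j * symAux J m (S.erase j)

/-- the sum over all orderings of `S` of the product of the `J j` -/
def sym (J : ι → A) (S : Finset ι) : A := symAux J S.card S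

lemma sym_empty (J : ι → A) : sym J ∅ = 1 := rfl

lemma sym_rec (J : ι → A) {S : Finset ι} (hS : S.Nonempty) :
    sym J S = ∑ j ∈ S, J j * sym J (S.erase j) := by
  obtain ⟨m, hm⟩ : ∃ m, S.card = m + 1 := ⟨S.card - 1, by have := hS.card_pos; omega⟩
  unfold sym
  rw [hm]
  show ∑ j ∈ S, J j * symAux J m (S.erase j) = _
  refine Finset.sum_congr rfl fun j hj => ?_
  rw [Finset.card_erase_of_mem hj, hm]
  rfl

/-- splitting at a marked element -/
lemma sym_marked (J : ι → A) (m : ℕ) : ∀ (S : Finset ι) (j : ι), S.card = m → j ∈ S →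
    sym J S = ∑ U ∈ (S.erase j).powerset, sym J U * J j * sym J ((S.erase j) \ U) := by
  induction m with
  | zero =>
    intro S j hS hj
    rw [Finset.card_eq_zero.mp hS] at hj
    simp at hj
  | succ m ih =>
    intro S j hS hj
    rw [sym_rec J ⟨j, hj⟩, ← Finset.add_sum_erase _ _ hj]
    have h1 : ∀ l ∈ S.erase j, J l * sym J (S.erase l)
        = ∑ U ∈ ((S.erase j).erase l).powerset,
          J l * (sym J U * J j * sym J ((S.erase j) \ insert l U)) := by
      intro l hl
      have hlj := Finset.mem_erase.mp hl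
      rw [ih (S.erase l) j (by rw [Finset.card_erase_of_mem hlj.2]; omega)
        (Finset.mem_erase.mpr ⟨hlj.1.symm, hj⟩), Finset.mul_sum]
      rw [Finset.erase_right_comm]
      refine Finset.sum_congr rfl fun U hU => ?_
      congr 3
      ext x
      simp only [Finset.mem_sdiff, Finset.mem_erase, Finset.mem_insert]
      tauto
    rw [Finset.sum_congr rfl h1,
      ← sum_powerset_erase (S.erase j) (fun l U =>
        J l * (sym J U * J j * sym J ((S.erase j) \ insert l U)))]
    rw [← Finset.add_sum_erase _ (fun U => sym J U * J j * sym J ((S.erase j) \ U))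
      (Finset.empty_mem_powerset (S.erase j))]
    rw [← Finset.add_sum_erase _ (fun U => ∑ l ∈ U,
      J l * (sym J (U.erase l) * J j * sym J ((S.erase j) \ insert l (U.erase l))))
      (Finset.empty_mem_powerset (S.erase j))]
    rw [sym_empty, one_mul, Finset.sdiff_empty, Finset.sum_empty, zero_add]
    congr 1
    refine Finset.sum_congr rfl fun U hU => ?_
    have hUne : U.Nonempty := Finset.nonempty_iff_ne_empty.mpr (Finset.ne_of_mem_erase hU)
    rw [sym_rec J hUne, Finset.sum_mul, Finset.sum_mul]
    refine Finset.sum_congr rfl fun l hl => ?_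
    rw [Finset.insert_erase hl]
    simp only [mul_assoc]

end Sym

variable {K : Type*} [Fintype K] [DecidableEq K]

/-- `mixE` for a finset of tokens -/
def EE (J : ι → Matrix K K ℤ) (S : Finset ι) : ℤ := mixE S (fun j : S => J j)

/-- `mixE` with one additional matrix -/
def GG (J : ι → Matrix K K ℤ) (M : Matrix K K ℤ) (R : Finset ι) : ℤ :=
  mixE (Option R) (fun o => o.elim M (fun l : R => J l))

/-- removing an element of a finset -/
def eOpt (R : Finset ι) (l : ι) (hl : l ∈ R) : Option (R.erase l : Finset ι) ≃ R where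
  toFun o := o.elim ⟨l, hl⟩ (fun y => ⟨y, Finset.mem_of_mem_erase y.2⟩)
  invFun y := if h : (y : ι) = l then none else some ⟨y, Finset.mem_erase.2 ⟨h, y.2⟩⟩
  left_inv := by
    rintro (_ | ⟨y, hy⟩)
    · simp
    · simp [Finset.ne_of_mem_erase hy]
  right_inv := by
    rintro ⟨y, hy⟩
    by_cases h : y = l
    · simp [h]
    · simp [h]

omit [DecidableEq K] in
lemma EE_eq_GG (J : ι → Matrix K K ℤ) (S : Finset ι) (j : ι) (hj : j ∈ S) :
    EE J S = GG J (J j) (S.erase j) := by
  unfold EE GG
  rw [← mixE_reindex (eOpt S j hj)]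
  congr 1
  funext o
  rcases o with _ | y
  · rfl
  · rfl

omit [DecidableEq K] in
lemma GG_rec (J : ι → Matrix K K ℤ) (M : Matrix K K ℤ) (R : Finset ι) :
    GG J M R = M.trace * EE J R - ∑ l ∈ R, GG J (M * J l) (R.erase l) := by
  have h := mixE_option (fun o : Option R => o.elim M (fun l : R => J l))
  unfold GG EE
  rw [h]
  congr 1
  rw [← Finset.sum_coe_sort R (fun l => mixE (Option (R.erase l : Finset ι))
    (fun o => o.elim (M * J l) (fun l : (R.erase l : Finset ι) => J l)))]
  refine Finset.sum_congr rfl fun l _ => ?_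
  rw [← mixE_reindex (eOpt R l l.2)]
  congr 1
  funext o
  rcases o with _ | y
  · simp [eOpt]
  · have hy : (y : ι) ≠ l := Finset.ne_of_mem_erase y.2
    have : (⟨(y : ι), Finset.mem_of_mem_erase y.2⟩ : R) ≠ l := by
      intro h'
      exact hy (congrArg Subtype.val h')
    simp [eOpt, Function.update_of_ne this]

omit [DecidableEq K] in
lemma EE_empty (J : ι → Matrix K K ℤ) : EE J ∅ = 1 := by
  unfold EE mixE
  have : IsEmpty ((∅ : Finset ι) : Type _) := by
    rw [isEmpty_iff]
    rintro ⟨x, hx⟩
    simp at hx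
  simp

lemma GG_unroll (J : ι → Matrix K K ℤ) (m : ℕ) : ∀ (R : Finset ι) (M : Matrix K K ℤ),
    R.card = m → GG J M R
      = ∑ U ∈ R.powerset, (-1) ^ U.card * (M * sym J U).trace * EE J (R \ U) := by
  induction m with
  | zero =>
    intro R M hR
    rw [Finset.card_eq_zero.mp hR, GG_rec]
    simp [sym_empty]
  | succ m ih =>
    intro R M hR
    rw [GG_rec]
    have h1 : ∀ l ∈ R, GG J (M * J l) (R.erase l)
        = ∑ U ∈ (R.erase l).powerset,
          (-1) ^ U.card * (M * (J l * sym J U)).trace * EE J (R \ insert l U) := by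
      intro l hl
      rw [ih (R.erase l) (M * J l) (by rw [Finset.card_erase_of_mem hl]; omega)]
      refine Finset.sum_congr rfl fun U hU => ?_
      rw [Matrix.mul_assoc]
      congr 2
      ext x
      simp only [Finset.mem_sdiff, Finset.mem_erase, Finset.mem_insert]
      tauto
    rw [Finset.sum_congr rfl h1,
      ← sum_powerset_erase R (fun l U =>
        (-1) ^ U.card * (M * (J l * sym J U)).trace * EE J (R \ insert l U))]
    rw [← Finset.add_sum_erase _ (fun U =>
      (-1) ^ U.card * (M * sym J U).trace * EE J (R \ U)) (Finset.empty_mem_powerset R)]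
    rw [← Finset.add_sum_erase _ (fun U => ∑ l ∈ U,
      (-1) ^ (U.erase l).card * (M * (J l * sym J (U.erase l))).trace *
        EE J (R \ insert l (U.erase l)))
      (Finset.empty_mem_powerset R)]
    rw [sym_empty, Finset.card_empty, pow_zero, one_mul, Matrix.mul_one, Finset.sdiff_empty,
      Finset.sum_empty, zero_add, sub_eq_add_neg]
    congr 1
    rw [← Finset.sum_neg_distrib]
    refine Finset.sum_congr rfl fun U hU => ?_
    have hUne : U.Nonempty := Finset.nonempty_iff_ne_empty.mpr (Finset.ne_of_mem_erase hU)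
    rw [sym_rec J hUne, Finset.mul_sum, Matrix.trace_sum, Finset.mul_sum, Finset.sum_mul,
      ← Finset.sum_neg_distrib]
    refine Finset.sum_congr rfl fun l hl => ?_
    rw [Finset.insert_erase hl, Finset.card_erase_of_mem hl]
    have hpos : U.card = (U.card - 1) + 1 := by
      have := hUne.card_pos
      omega
    rw [show (-1 : ℤ) ^ U.card = (-1) ^ (U.card - 1) * (-1) by
      conv_lhs => rw [hpos]
      rw [pow_succ]]
    ring

end H28PM
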