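import Pool.Agent.Lib_helper28.PM.Psi3

set_option autoImplicit false

namespace H28PM

open Finset

variable {ι : Type*} [DecidableEq ι]

lemma psi_one (m : ℕ) : ∀ S : Finset ι, S.card = m →
    psi (fun _ _ => (1 : ℤ)) S = (S.card.factorial : ℤ) := by
  induction m with
  | zero =>
    intro S hS
    rw [Finset.card_eq_zero.mp hS]
    simp [psi_empty]
  | succ m ih =>
    intro S hS
    have hne : S.Nonempty := by rw [← Finset.card_pos]; omega
    rw [psi_rec _ hne]
    have h1 : ∀ j ∈ S, (∏ v ∈ S.erase j, (1 : ℤ)) * psi (fun _ _ => (1 : ℤ)) (S.erase j)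
        = (m.factorial : ℤ) := by
      intro j hj
      have hc : (S.erase j).card = m := by rw [Finset.card_erase_of_mem hj, hS]; rfl
      rw [ih (S.erase j) hc, hc]
      simp
    rw [Finset.sum_congr rfl h1, Finset.sum_const, hS, Nat.factorial_succ]
    push_cast
    simp

theorem psi_not_dvd [Fintype ι] {b : ι → ι → ℤ} (hb : PM1 b) (l : ι → ℕ) (a : ℕ)
    (hcard : Fintype.card ι = 2 ^ a)
    (h1 : ∀ u v v', l v = l v' → b u v = b u v')
    (h2 : ∀ u v, l v = 0 → b u v = 1)
    (h3 : ∀ u v, l v < l u → b u v = 1)
    (h4 : ∀ u u' v, l u = l v → l u' = l v → b u v = b u' v)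
    (h5 : ∀ i, 1 ≤ i → Even (Finset.univ.filter (fun v => l v = i)).card) :
    ¬ (2 : ℤ) ^ (2 ^ a) ∣ psi b Finset.univ := by
  classical
  let bm : ℕ → ι → ι → ℤ := fun m u v => if l v ≤ m then b u v else 1
  have hstep : ∀ m, (2 : ℤ) ^ (2 ^ a) ∣ psi (bm (m + 1)) Finset.univ - psi (bm m) Finset.univ := by
    intro m
    have hS : Step (bm (m + 1)) (bm m) (Finset.univ.filter (fun v => l v = m + 1)) := by
      constructor
      · intro u v
        simp only [bm]
        split_ifs
        · exact hb u v
        · left; rfl
      · intro u v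
        simp only [bm]
        split_ifs
        · exact hb u v
        · left; rfl
      · intro u v hv
        simp only [Finset.mem_filter, Finset.mem_univ, true_and] at hv
        simp only [bm]
        have : l v ≤ m + 1 ↔ l v ≤ m := by omega
        simp only [this]
      · intro u v hv
        simp only [Finset.mem_filter, Finset.mem_univ, true_and] at hv
        simp only [bm]
        rw [if_neg (by omega)]
      · intro u v v' hv hv'
        simp only [Finset.mem_filter, Finset.mem_univ, true_and] at hv hv'
        simp only [bm]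
        rw [if_pos (by omega), if_pos (by omega)]
        exact h1 u v v' (by omega)
      · intro u v hu hv
        simp only [Finset.mem_filter, Finset.mem_univ, true_and] at hu hv
        simp only [bm]
        split_ifs with h
        · exact h3 u v (by omega)
        · rfl
      · intro u u' v hu hu' hv
        simp only [Finset.mem_filter, Finset.mem_univ, true_and] at hu hu' hv
        simp only [bm]
        rw [if_pos (by omega), if_pos (by omega)]
        exact h4 u u' v (by omega) (by omega)
    apply step_psi hS a Finset.univ (by rw [Finset.card_univ, hcard])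
    rw [Finset.univ_inter]
    exact h5 (m + 1) (by omega)
  have hall : ∀ m, (2 : ℤ) ^ (2 ^ a) ∣ psi (bm m) Finset.univ - psi (bm 0) Finset.univ := by
    intro m
    induction m with
    | zero => rw [sub_self]; exact dvd_zero _
    | succ m ih =>
      have := dvd_add (hstep m) ih
      rwa [sub_add_sub_cancel] at this
  have h0 : bm 0 = fun _ _ => (1 : ℤ) := by
    funext u v
    simp only [bm]
    split_ifs with h
    · exact h2 u v (by omega)
    · rfl
  obtain ⟨M, hM⟩ : ∃ M, ∀ v, l v ≤ M :=
    ⟨Finset.univ.sup l, fun v => Finset.le_sup (f := l) (Finset.mem_univ v)⟩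
  have hMb : bm M = b := by
    funext u v
    simp only [bm]
    rw [if_pos (hM v)]
  have hfin := hall M
  rw [hMb, h0, psi_one _ _ rfl, Finset.card_univ, hcard] at hfin
  intro hd
  have hd2 : (2 : ℤ) ^ (2 ^ a) ∣ ((2 ^ a).factorial : ℤ) := by
    have := dvd_sub hd hfin
    rwa [sub_sub_cancel] at this
  have hd3 : 2 ^ (2 ^ a) ∣ (2 ^ a).factorial := by
    exact_mod_cast hd2
  have hlt := Nat.emultiplicity_two_factorial_lt (n := 2 ^ a) (by positivity)
  rw [emultiplicity_lt_iff_not_dvd] at hlt
  exact hlt hd3

end H28PM
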