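import Pool.Agent.Lib_helper28.PM.Mix2
import Pool.Agent.Lib_helper28.PM.Psi4

/-!
Pauli matrices and the 2-adic evaluation of `mixE`.
-/

set_option autoImplicit false

namespace H28PM

open Finset

variable {ι : Type*} [DecidableEq ι]
variable {K : Type*} [Fintype K] [DecidableEq K] [AddCommGroup K]

/-- the matrix with entry `χ r` at `(r, r + x)` -/
def pauli (x : K) (χ : K → ℤ) : Matrix K K ℤ :=
  Matrix.of fun r c => if c = r + x then χ r else 0

omit [Fintype K] in
lemma pauli_apply (x : K) (χ : K → ℤ) (r c : K) :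
    pauli x χ r c = if c = r + x then χ r else 0 := rfl

lemma pauli_trace (x : K) (χ : K → ℤ) :
    (pauli x χ).trace = ∑ r, if r = r + x then χ r else 0 := rfl

lemma pauli_mul (x y : K) (χ η : K → ℤ) (hη : ∀ r s, η (r + s) = η r * η s) :
    pauli x χ * pauli y η = η x • pauli (x + y) (fun r => χ r * η r) := by
  ext r c
  rw [Matrix.mul_apply, Matrix.smul_apply]
  simp only [pauli_apply]
  rw [Finset.sum_eq_single (r + x)]
  · rw [if_pos rfl, hη r x, add_assoc]
    split_ifs
    · simp only [smul_eq_mul]; ring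
    · simp
  · intro m _ hm
    rw [if_neg hm, zero_mul]
  · intro h
    exact absurd (Finset.mem_univ _) h

/-- the data: translation parts, characters -/
structure Data (x : ι → K) (χ : ι → K → ℤ) : Prop where
  add : ∀ j r s, χ j (r + s) = χ j r * χ j s
  pm : ∀ j r, χ j r = 1 ∨ χ j r = -1

variable {x : ι → K} {χ : ι → K → ℤ}

omit [DecidableEq ι] [Fintype K] [DecidableEq K] in
lemma Data.prod_add (h : Data x χ) (S : Finset ι) (r s : K) :
    (∏ j ∈ S, χ j (r + s)) = (∏ j ∈ S, χ j r) * ∏ j ∈ S, χ j s := by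
  rw [← Finset.prod_mul_distrib]
  exact Finset.prod_congr rfl fun j _ => h.add j r s

omit [Fintype K] [DecidableEq K] in
lemma Data.prod_pm (h : Data x χ) (S : Finset ι) (r : K) :
    (∏ j ∈ S, χ j r = 1) ∨ (∏ j ∈ S, χ j r = -1) :=
  H28PM.prod_pm S _ fun j _ => h.pm j r

lemma Data.sym_eq (h : Data x χ) (m : ℕ) : ∀ S : Finset ι, S.card = m →
    sym (fun j => pauli (x j) (χ j)) S
      = psi (fun u v => χ v (x u)) S • pauli (∑ j ∈ S, x j) (fun r => ∏ j ∈ S, χ j r) := by
  induction m with
  | zero =>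
    intro S hS
    rw [Finset.card_eq_zero.mp hS, sym_empty, psi_empty, one_smul]
    ext r c
    simp [pauli_apply, Matrix.one_apply, eq_comm]
  | succ m ih =>
    intro S hS
    have hne : S.Nonempty := by rw [← Finset.card_pos]; omega
    rw [sym_rec _ hne, psi_rec _ hne, Finset.sum_smul]
    refine Finset.sum_congr rfl fun j hj => ?_
    rw [ih (S.erase j) (by rw [Finset.card_erase_of_mem hj]; omega), Matrix.mul_smul,
      pauli_mul _ _ _ _ (h.prod_add (S.erase j)), smul_smul]
    rw [Finset.add_sum_erase _ _ hj]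
    have : (fun r => χ j r * ∏ i ∈ S.erase j, χ i r) = fun r => ∏ i ∈ S, χ i r := by
      funext r
      exact Finset.mul_prod_erase _ (fun i => χ i r) hj
    rw [this, mul_comm]

lemma trace_pauli_dvd (y : K) (η : K → ℤ) (hadd : ∀ r s, η (r + s) = η r * η s)
    (hpm : ∀ r, η r = 1 ∨ η r = -1) : (Fintype.card K : ℤ) ∣ (pauli y η).trace := by
  rw [pauli_trace]
  by_cases hy : y = 0
  · subst hy
    simp only [add_zero, if_true]
    by_cases hall : ∀ r, η r = 1
    · simp only [hall]
      simp
    · push Not at hall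
      obtain ⟨r0, hr0⟩ := hall
      have h1 : η r0 = -1 := (hpm r0).resolve_left hr0
      have h2 : ∑ r, η r = - ∑ r, η r := by
        conv_lhs => rw [← Equiv.sum_comp (Equiv.addRight r0)]
        rw [← Finset.sum_neg_distrib]
        refine Finset.sum_congr rfl fun r _ => ?_
        simp only [Equiv.coe_addRight]
        rw [hadd, h1]; ring
      have h3 : ∑ r, η r = 0 := by linarith
      rw [h3]; exact dvd_zero _
  · have : ∀ r : K, ¬ (r = r + y) := by
      intro r hr
      exact hy (by simpa using hr)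
    simp [this]

omit [DecidableEq ι] [Fintype K] [DecidableEq K] in
lemma Data.b_pm (h : Data x χ) : PM1 (fun u v => χ v (x u)) := fun u v => h.pm v (x u)

lemma Data.trace_dvd (h : Data x χ) (k : ℕ) (hK : Fintype.card K = 2 ^ k) (j : ι)
    (U : Finset ι) (hlt : U.card + 1 < 2 ^ k) :
    (2 : ℤ) ^ (U.card + 1) ∣
      (pauli (x j) (χ j) * sym (fun j => pauli (x j) (χ j)) U).trace := by
  rw [h.sym_eq _ U rfl, Matrix.mul_smul, pauli_mul _ _ _ _ (h.prod_add U), Matrix.trace_smul,
    Matrix.trace_smul]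
  have h1 := (psi_dvd h.b_pm k U (by omega)).2 hlt
  have h2 := trace_pauli_dvd (x j + ∑ i ∈ U, x i) (fun r => χ j r * ∏ i ∈ U, χ i r)
    (by intro r s; rw [h.add, h.prod_add U]; ring)
    (by
      intro r
      rcases h.pm j r with h1 | h1 <;> rcases h.prod_pm U r with h2 | h2 <;> simp only [h1, h2] <;>
        norm_num)
  rw [hK] at h2
  push_cast at h2
  obtain ⟨t, ht⟩ := h2
  rw [ht]
  simp only [smul_eq_mul]
  have : psi (fun u v => χ v (x u)) U * ((∏ i ∈ U, χ i (x j)) * (2 ^ k * t))
      = (2 ^ k * psi (fun u v => χ v (x u)) U) * ((∏ i ∈ U, χ i (x j)) * t) := by ring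
  rw [this]
  exact Dvd.dvd.mul_right h1 _

lemma Data.EE_dvd (h : Data x χ) (k : ℕ) (hK : Fintype.card K = 2 ^ k) (m : ℕ) :
    ∀ S : Finset ι, S.card = m → S.card < 2 ^ k →
      (2 : ℤ) ^ S.card ∣ EE (fun j => pauli (x j) (χ j)) S := by
  induction m using Nat.strong_induction_on with
  | _ m ih =>
    intro S hS hlt
    rcases S.eq_empty_or_nonempty with rfl | ⟨j, hj⟩
    · simp
    · rw [EE_eq_GG _ S j hj, GG_unroll _ _ (S.erase j) _ rfl]
      refine Finset.dvd_sum fun U hU => ?_
      rw [Finset.mem_powerset] at hU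
      have hcU : U.card ≤ S.card - 1 := by
        have := Finset.card_le_card hU
        rwa [Finset.card_erase_of_mem hj] at this
      have hSpos : 0 < S.card := Finset.card_pos.mpr ⟨j, hj⟩
      have h1 := h.trace_dvd k hK j U (by omega)
      have hcard : ((S.erase j) \ U).card = S.card - 1 - U.card := by
        rw [Finset.card_sdiff_of_subset hU, Finset.card_erase_of_mem hj]
      have h2 := ih (S.card - 1 - U.card) (by omega) ((S.erase j) \ U) hcard (by omega)
      rw [hcard] at h2
      have h3 := mul_dvd_mul h1 h2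
      rw [← pow_add, show U.card + 1 + (S.card - 1 - U.card) = S.card by omega] at h3
      rw [mul_assoc]
      exact Dvd.dvd.mul_left h3 _

section Full

variable [Fintype ι]

lemma Data.EE_univ (h : Data x χ) (k : ℕ) (hK : Fintype.card K = 2 ^ k)
    (hι : Fintype.card ι = 2 ^ k) (j : ι) :
    (2 : ℤ) ^ (2 ^ k) ∣ EE (fun j => pauli (x j) (χ j)) Finset.univ
      - (-1) ^ (2 ^ k - 1) * (pauli (x j) (χ j) *
        sym (fun j => pauli (x j) (χ j)) (Finset.univ.erase j)).trace := by
  have hpos : 0 < 2 ^ k := by positivity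
  have hcu : (Finset.univ.erase j : Finset ι).card = 2 ^ k - 1 := by
    rw [Finset.card_erase_of_mem (Finset.mem_univ j), Finset.card_univ, hι]
  rw [EE_eq_GG _ Finset.univ j (Finset.mem_univ j), GG_unroll _ _ (Finset.univ.erase j) _ rfl]
  rw [← Finset.add_sum_erase _ _ (Finset.mem_powerset_self (Finset.univ.erase j))]
  rw [Finset.sdiff_self, EE_empty, mul_one, hcu, add_sub_cancel_left]
  refine Finset.dvd_sum fun U hU => ?_
  have hne := Finset.ne_of_mem_erase hU
  have hU' := Finset.mem_powerset.mp (Finset.mem_of_mem_erase hU)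
  have hlt : U.card < 2 ^ k - 1 := by
    have h1 := Finset.card_lt_card (Finset.ssubset_iff_subset_ne.mpr ⟨hU', hne⟩)
    rwa [hcu] at h1
  have h1 := h.trace_dvd k hK j U (by omega)
  have hcard : ((Finset.univ.erase j) \ U).card = 2 ^ k - 1 - U.card := by
    rw [Finset.card_sdiff_of_subset hU', hcu]
  have h2 := h.EE_dvd k hK _ ((Finset.univ.erase j) \ U) rfl (by rw [hcard]; omega)
  rw [hcard] at h2
  have h3 := mul_dvd_mul h1 h2
  rw [← pow_add, show U.card + 1 + (2 ^ k - 1 - U.card) = 2 ^ k by omega] at h3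
  rw [mul_assoc]
  exact Dvd.dvd.mul_left h3 _

omit [AddCommGroup K] in
/-- cyclicity: the trace does not depend on the marked element -/
lemma trace_marked (J : ι → Matrix K K ℤ) (i j : ι) :
    (J i * sym J (Finset.univ.erase i)).trace = (J j * sym J (Finset.univ.erase j)).trace := by
  by_cases hij : i = j
  · rw [hij]
  rw [sym_marked J _ (Finset.univ.erase i) j rfl
      (Finset.mem_erase.mpr ⟨fun h => hij h.symm, Finset.mem_univ j⟩),
    sym_marked J _ (Finset.univ.erase j) i rfl
      (Finset.mem_erase.mpr ⟨hij, Finset.mem_univ i⟩)]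
  rw [Finset.mul_sum, Finset.mul_sum, Matrix.trace_sum, Matrix.trace_sum]
  rw [Finset.erase_right_comm (a := j) (b := i)]
  refine Finset.sum_bij' (fun U _ => ((Finset.univ.erase i).erase j) \ U)
    (fun U _ => ((Finset.univ.erase i).erase j) \ U) ?_ ?_ ?_ ?_ ?_
  · intro U hU
    exact Finset.mem_powerset.mpr Finset.sdiff_subset
  · intro U hU
    exact Finset.mem_powerset.mpr Finset.sdiff_subset
  · intro U hU
    exact Finset.sdiff_sdiff_eq_self (Finset.mem_powerset.mp hU)
  · intro U hU
    exact Finset.sdiff_sdiff_eq_self (Finset.mem_powerset.mp hU)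
  · intro U hU
    rw [Finset.sdiff_sdiff_eq_self (Finset.mem_powerset.mp hU)]
    generalize sym J U = P
    generalize sym J (((Finset.univ.erase i).erase j) \ U) = Q
    calc (J i * (P * J j * Q)).trace = ((J i * P) * (J j * Q)).trace := by
          congr 1; simp only [Matrix.mul_assoc]
      _ = ((J j * Q) * (J i * P)).trace := Matrix.trace_mul_comm _ _
      _ = (J j * (Q * J i * P)).trace := by
          congr 1; simp only [Matrix.mul_assoc]

lemma Data.trace_eq_psi (h : Data x χ) (k : ℕ) (hK : Fintype.card K = 2 ^ k)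
    (hι : Fintype.card ι = 2 ^ k) (hx : ∑ j, x j = 0) (hχ : ∀ r, ∏ j, χ j r = 1) (j : ι) :
    (pauli (x j) (χ j) * sym (fun j => pauli (x j) (χ j)) (Finset.univ.erase j)).trace
      = psi (fun u v => χ v (x u)) Finset.univ := by
  have h1 : (sym (fun j => pauli (x j) (χ j)) (Finset.univ : Finset ι)).trace
      = 2 ^ k * (pauli (x j) (χ j) *
        sym (fun j => pauli (x j) (χ j)) (Finset.univ.erase j)).trace := by
    rw [sym_rec _ ⟨j, Finset.mem_univ j⟩, Matrix.trace_sum]
    rw [Finset.sum_congr rfl (fun i _ => trace_marked (fun j => pauli (x j) (χ j)) i j),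
      Finset.sum_const, Finset.card_univ, hι]
    simp
  have h2 : (sym (fun j => pauli (x j) (χ j)) (Finset.univ : Finset ι)).trace
      = 2 ^ k * psi (fun u v => χ v (x u)) Finset.univ := by
    rw [h.sym_eq _ Finset.univ rfl, hx, Matrix.trace_smul]
    have : (pauli (0 : K) (fun r => ∏ j, χ j r)).trace = 2 ^ k := by
      rw [pauli_trace]
      simp [hχ, hK]
    rw [this, smul_eq_mul, mul_comm]
  rw [h1] at h2
  exact mul_left_cancel₀ (by positivity) h2

/-- The key non-vanishing result. -/
theorem Data.mixE_ne_zero (h : Data x χ) (k : ℕ) (hK : Fintype.card K = 2 ^ k)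
    (hι : Fintype.card ι = 2 ^ k) (hx : ∑ j, x j = 0) (hχ : ∀ r, ∏ j, χ j r = 1)
    (hψ : ¬ (2 : ℤ) ^ (2 ^ k) ∣ psi (fun u v => χ v (x u)) (Finset.univ : Finset ι)) :
    mixE ι (fun j => pauli (x j) (χ j)) ≠ 0 := by
  have hpos : 0 < Fintype.card ι := by rw [hι]; positivity
  obtain ⟨j⟩ : Nonempty ι := Fintype.card_pos_iff.mp hpos
  have h1 := h.EE_univ k hK hι j
  rw [h.trace_eq_psi k hK hι hx hχ j] at h1
  have h2 : EE (fun j => pauli (x j) (χ j)) (Finset.univ : Finset ι)
      = mixE ι (fun j => pauli (x j) (χ j)) := by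
    unfold EE
    exact mixE_reindex (Equiv.subtypeUnivEquiv (p := fun j => j ∈ (Finset.univ : Finset ι))
      (fun j => Finset.mem_univ j)) (fun j => pauli (x j) (χ j))
  rw [h2] at h1
  intro h0
  rw [h0, zero_sub, dvd_neg] at h1
  apply hψ
  rcases neg_one_pow_eq_or ℤ (2 ^ k - 1) with h3 | h3 <;> rw [h3] at h1
  · simpa using h1
  · simpa using h1

end Full

end H28PM
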