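import Mathlib

/-!
Weighted numbers of orderings and their 2-adic divisibility.
-/

set_option autoImplicit false

namespace H28PM

open Finset

variable {ι : Type*} [DecidableEq ι]

/-- auxiliary: sum over all orderings of `S` of the product of `b u v` over pairs `u` before `v`. -/
def psiAux (b : ι → ι → ℤ) : ℕ → Finset ι → ℤ
  | 0, _ => 1
  | m + 1, S => ∑ j ∈ S, (∏ v ∈ S.erase j, b j v) * psiAux b m (S.erase j)

/-- sum over all orderings of `S` of the product of `b u v` over pairs `u` before `v`. -/
def psi (b : ι → ι → ℤ) (S : Finset ι) : ℤ := psiAux b S.card S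

/-- product over all pairs -/
def BB (b : ι → ι → ℤ) (U V : Finset ι) : ℤ := ∏ u ∈ U, ∏ v ∈ V, b u v

lemma psi_empty (b : ι → ι → ℤ) : psi b ∅ = 1 := rfl

lemma psi_rec (b : ι → ι → ℤ) {S : Finset ι} (hS : S.Nonempty) :
    psi b S = ∑ j ∈ S, (∏ v ∈ S.erase j, b j v) * psi b (S.erase j) := by
  obtain ⟨m, hm⟩ : ∃ m, S.card = m + 1 := ⟨S.card - 1, by have := hS.card_pos; omega⟩
  unfold psi
  rw [hm]
  show ∑ j ∈ S, (∏ v ∈ S.erase j, b j v) * psiAux b m (S.erase j) = _
  refine Finset.sum_congr rfl fun j hj => ?_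
  rw [Finset.card_erase_of_mem hj, hm]
  rfl

lemma psi_singleton (b : ι → ι → ℤ) (j : ι) : psi b {j} = 1 := by
  rw [psi_rec b (Finset.singleton_nonempty j)]
  simp [psi_empty]

lemma BB_insert_left (b : ι → ι → ℤ) {j : ι} {U : Finset ι} (hj : j ∉ U) (V : Finset ι) :
    BB b (insert j U) V = (∏ v ∈ V, b j v) * BB b U V := by
  unfold BB
  rw [Finset.prod_insert hj]

/-- splitting an ordering into its first `r` elements and the rest -/
lemma psi_split (b : ι → ι → ℤ) (r : ℕ) : ∀ S : Finset ι, r ≤ S.card →
    psi b S = ∑ U ∈ S.powersetCard r, BB b U (S \ U) * psi b U * psi b (S \ U) := by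
  induction r with
  | zero =>
    intro S _
    simp [BB, psi_empty]
  | succ r ih =>
    intro S hS
    have hne : S.Nonempty := by
      rw [← Finset.card_pos]; omega
    rw [psi_rec b hne]
    have h1 : ∀ j ∈ S, (∏ v ∈ S.erase j, b j v) * psi b (S.erase j)
        = ∑ U ∈ (S.erase j).powersetCard r, (∏ v ∈ S.erase j, b j v) *
          (BB b U ((S.erase j) \ U) * psi b U * psi b ((S.erase j) \ U)) := by
      intro j hj
      rw [ih (S.erase j) (by rw [Finset.card_erase_of_mem hj]; omega), Finset.mul_sum]
    rw [Finset.sum_congr rfl h1]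
    have h2 : ∀ U ∈ S.powersetCard (r + 1), BB b U (S \ U) * psi b U * psi b (S \ U)
        = ∑ j ∈ U, BB b U (S \ U) * ((∏ v ∈ U.erase j, b j v) * psi b (U.erase j))
            * psi b (S \ U) := by
      intro U hU
      rw [Finset.mem_powersetCard] at hU
      have hUne : U.Nonempty := by rw [← Finset.card_pos]; omega
      rw [psi_rec b hUne, Finset.mul_sum, Finset.sum_mul]
    rw [Finset.sum_congr rfl h2]
    rw [Finset.sum_sigma', Finset.sum_sigma']
    refine Finset.sum_bij' (fun p _ => ⟨insert p.1 p.2, p.1⟩) (fun q _ => ⟨q.2, q.1.erase q.2⟩)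
      ?_ ?_ ?_ ?_ ?_
    · rintro ⟨j, U⟩ h
      simp only [Finset.mem_sigma, Finset.mem_powersetCard] at h ⊢
      obtain ⟨hj, hU, hc⟩ := h
      have hjU : j ∉ U := fun h' => by simpa using hU h'
      refine ⟨⟨?_, ?_⟩, ?_⟩
      · intro x hx
        rcases Finset.mem_insert.mp hx with rfl | hx
        · exact hj
        · exact Finset.mem_of_mem_erase (hU hx)
      · rw [Finset.card_insert_of_notMem hjU, hc]
      · exact Finset.mem_insert_self _ _
    · rintro ⟨U, j⟩ h
      simp only [Finset.mem_sigma, Finset.mem_powersetCard] at h ⊢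
      obtain ⟨⟨hU, hc⟩, hj⟩ := h
      refine ⟨hU hj, Finset.erase_subset_erase _ hU, ?_⟩
      rw [Finset.card_erase_of_mem hj, hc]; rfl
    · rintro ⟨j, U⟩ h
      simp only [Finset.mem_sigma, Finset.mem_powersetCard] at h
      obtain ⟨hj, hU, hc⟩ := h
      have hjU : j ∉ U := fun h' => by simpa using hU h'
      simp [Finset.erase_insert hjU]
    · rintro ⟨U, j⟩ h
      simp only [Finset.mem_sigma, Finset.mem_powersetCard] at h
      obtain ⟨⟨hU, hc⟩, hj⟩ := h
      simp [Finset.insert_erase hj]
    · rintro ⟨j, U⟩ h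
      simp only [Finset.mem_sigma, Finset.mem_powersetCard] at h
      obtain ⟨hj, hU, hc⟩ := h
      have hjU : j ∉ U := fun h' => by simpa using hU h'
      simp only
      rw [Finset.erase_insert hjU, BB_insert_left b hjU]
      have hV : (S.erase j) \ U = S \ insert j U := by
        ext x; simp only [Finset.mem_sdiff, Finset.mem_erase, Finset.mem_insert]; tauto
      have hsplit : S.erase j = U ∪ (S \ insert j U) := by
        ext x
        simp only [Finset.mem_erase, Finset.mem_union, Finset.mem_sdiff, Finset.mem_insert]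
        constructor
        · rintro ⟨h1, h2⟩
          by_cases hx : x ∈ U
          · exact Or.inl hx
          · exact Or.inr ⟨h2, fun h => h.elim h1 hx⟩
        · rintro (h | ⟨h1, h2⟩)
          · exact Finset.mem_erase.mp (hU h)
          · exact ⟨fun h => h2 (Or.inl h), h1⟩
      have hdisj : Disjoint U (S \ insert j U) := by
        rw [Finset.disjoint_left]
        intro x hx hx'
        simp only [Finset.mem_sdiff, Finset.mem_insert] at hx'
        exact hx'.2 (Or.inr hx)
      have hprod : (∏ v ∈ S.erase j, b j v)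
          = (∏ v ∈ U, b j v) * ∏ v ∈ S \ insert j U, b j v := by
        rw [hsplit, Finset.prod_union hdisj]
      rw [hV, hprod]
      ring

end H28PM
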