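import Pool.Agent.Lib_helper28.PM.Psi

set_option autoImplicit false

namespace H28PM

open Finset

variable {ι : Type*} [DecidableEq ι]

/-- pairing the halves with their complements -/
lemma sum_half (S : Finset ι) (m : ℕ) (hS : S.card = 2 * m) (s0 : ι) (hs0 : s0 ∈ S)
    (f : Finset ι → ℤ) :
    ∑ U ∈ S.powersetCard m, f U
      = ∑ U ∈ (S.powersetCard m).filter (fun U => s0 ∈ U), (f U + f (S \ U)) := by
  rw [← Finset.sum_filter_add_sum_filter_not (S.powersetCard m) (fun U => s0 ∈ U) f,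
    Finset.sum_add_distrib]
  congr 1
  symm
  refine Finset.sum_bij' (fun U _ => S \ U) (fun U _ => S \ U) ?_ ?_ ?_ ?_ ?_
  · intro U hU
    simp only [Finset.mem_filter, Finset.mem_powersetCard] at hU ⊢
    obtain ⟨⟨h1, h2⟩, h3⟩ := hU
    refine ⟨⟨Finset.sdiff_subset, ?_⟩, ?_⟩
    · rw [Finset.card_sdiff_of_subset h1, hS, h2]; omega
    · simp [h3]
  · intro U hU
    simp only [Finset.mem_filter, Finset.mem_powersetCard] at hU ⊢
    obtain ⟨⟨h1, h2⟩, h3⟩ := hU
    refine ⟨⟨Finset.sdiff_subset, ?_⟩, ?_⟩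
    · rw [Finset.card_sdiff_of_subset h1, hS, h2]; omega
    · simp [h3, hs0]
  · intro U hU
    simp only [Finset.mem_filter, Finset.mem_powersetCard] at hU
    exact Finset.sdiff_sdiff_eq_self hU.1.1
  · intro U hU
    simp only [Finset.mem_filter, Finset.mem_powersetCard] at hU
    exact Finset.sdiff_sdiff_eq_self hU.1.1
  · intro U hU
    rfl

/-- `±1`-valued -/
def PM1 (b : ι → ι → ℤ) : Prop := ∀ u v, b u v = 1 ∨ b u v = -1

lemma prod_pm (s : Finset ι) (f : ι → ℤ) (hf : ∀ i ∈ s, f i = 1 ∨ f i = -1) :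
    (∏ i ∈ s, f i = 1) ∨ (∏ i ∈ s, f i = -1) := by
  classical
  induction s using Finset.induction_on with
  | empty => left; simp
  | insert a s ha ih =>
    rw [Finset.prod_insert ha]
    rcases hf a (Finset.mem_insert_self _ _) with h1 | h1 <;>
    rcases ih (fun i hi => hf i (Finset.mem_insert_of_mem hi)) with h2 | h2 <;>
    rw [h1, h2] <;> simp

lemma BB_pm {b : ι → ι → ℤ} (hb : PM1 b) (U V : Finset ι) : BB b U V = 1 ∨ BB b U V = -1 := by
  unfold BB
  apply prod_pm
  intro u _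
  apply prod_pm
  intro v _
  exact hb u v

lemma psi_pow_dvd {b : ι → ι → ℤ} (hb : PM1 b) (a : ℕ) : ∀ S : Finset ι, S.card = 2 ^ a →
    (2 : ℤ) ^ (2 ^ a - 1) ∣ psi b S := by
  induction a with
  | zero => intro S _; simp
  | succ a ih =>
    intro S hS
    have hS' : S.card = 2 * 2 ^ a := by rw [hS, pow_succ]; ring
    have hpos : 0 < 2 ^ a := by positivity
    obtain ⟨s0, hs0⟩ : S.Nonempty := by rw [← Finset.card_pos, hS']; omega
    rw [psi_split b (2 ^ a) S (by omega), sum_half S (2 ^ a) hS' s0 hs0]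
    refine Finset.dvd_sum fun U hU => ?_
    simp only [Finset.mem_filter, Finset.mem_powersetCard] at hU
    obtain ⟨⟨h1, h2⟩, h3⟩ := hU
    have hc : (S \ U).card = 2 ^ a := by rw [Finset.card_sdiff_of_subset h1, hS', h2]; omega
    rw [Finset.sdiff_sdiff_eq_self h1]
    obtain ⟨p, hp⟩ := ih U h2
    obtain ⟨q, hq⟩ := ih (S \ U) hc
    have he : (2 : ℤ) ∣ BB b U (S \ U) + BB b (S \ U) U := by
      rcases BB_pm hb U (S \ U) with h | h <;> rcases BB_pm hb (S \ U) U with h' | h' <;>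
        rw [h, h'] <;> norm_num
    obtain ⟨e, he⟩ := he
    have : BB b U (S \ U) * psi b U * psi b (S \ U) + BB b (S \ U) U * psi b (S \ U) * psi b U
        = (BB b U (S \ U) + BB b (S \ U) U) * psi b U * psi b (S \ U) := by ring
    rw [this, he, hp, hq]
    refine ⟨e * p * q, ?_⟩
    have h2e : (2 : ℤ) ^ (2 ^ (a + 1) - 1) = 2 * 2 ^ (2 ^ a - 1) * 2 ^ (2 ^ a - 1) := by
      rw [mul_assoc, ← pow_add, ← pow_succ']
      congr 1
      rw [pow_succ]; omega
    rw [h2e]; ring

/-- the divisibility needed for the trace expansion -/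
lemma psi_dvd {b : ι → ι → ℤ} (hb : PM1 b) (k : ℕ) : ∀ S : Finset ι, S.card < 2 ^ k →
    ((2 : ℤ) ^ S.card ∣ 2 ^ k * psi b S ∧
      (S.card + 1 < 2 ^ k → (2 : ℤ) ^ (S.card + 1) ∣ 2 ^ k * psi b S)) := by
  induction k with
  | zero =>
    intro S hS
    have h0 : S.card = 0 := by simpa using hS
    rw [h0]
    simp
  | succ k ih =>
    intro S hS
    have hpos : 0 < 2 ^ k := by positivity
    have h2k : 2 ^ (k + 1) = 2 * 2 ^ k := by rw [pow_succ]; ring
    by_cases hlt : S.card < 2 ^ k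
    · have h1 := (ih S hlt).1
      have h2 : (2 : ℤ) ^ (S.card + 1) ∣ 2 ^ (k + 1) * psi b S := by
        rw [pow_succ, pow_succ, mul_comm ((2 : ℤ) ^ S.card) 2, mul_comm ((2 : ℤ) ^ k) 2,
          mul_assoc]
        exact mul_dvd_mul_left 2 h1
      refine ⟨?_, fun _ => h2⟩
      exact dvd_trans (pow_dvd_pow 2 (Nat.le_succ _)) h2
    · push Not at hlt
      have key : ∀ (e : ℕ), (∀ U ∈ S.powersetCard (2 ^ k),
          (2 : ℤ) ^ (e) ∣ 2 ^ k * psi b (S \ U)) →
          (2 : ℤ) ^ (2 ^ k + e) ∣ 2 ^ (k + 1) * psi b S := by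
        intro e he
        rw [psi_split b (2 ^ k) S hlt, Finset.mul_sum]
        refine Finset.dvd_sum fun U hU => ?_
        have hU' := Finset.mem_powersetCard.mp hU
        obtain ⟨p, hp⟩ := psi_pow_dvd hb k U hU'.2
        obtain ⟨q, hq⟩ := he U hU
        refine ⟨BB b U (S \ U) * p * q, ?_⟩
        have : (2 : ℤ) ^ (k + 1) * (BB b U (S \ U) * psi b U * psi b (S \ U))
            = 2 * BB b U (S \ U) * psi b U * (2 ^ k * psi b (S \ U)) := by
          rw [pow_succ]; ring
        rw [this, hq, hp]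
        have h2e : (2 : ℤ) ^ (2 ^ k + e) = 2 * 2 ^ (2 ^ k - 1) * 2 ^ e := by
          rw [← pow_succ', ← pow_add]
          congr 1
          omega
        rw [h2e]; ring
      have hcard : ∀ U ∈ S.powersetCard (2 ^ k), (S \ U).card = S.card - 2 ^ k := by
        intro U hU
        have hU' := Finset.mem_powersetCard.mp hU
        rw [Finset.card_sdiff_of_subset hU'.1, hU'.2]
      constructor
      · have := key (S.card - 2 ^ k) (fun U hU => by
          have h := (ih (S \ U) (by rw [hcard U hU]; omega)).1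
          rwa [hcard U hU] at h)
        rwa [show 2 ^ k + (S.card - 2 ^ k) = S.card by omega] at this
      · intro hlt2
        have := key (S.card - 2 ^ k + 1) (fun U hU => by
          have h := (ih (S \ U) (by rw [hcard U hU]; omega)).2 (by rw [hcard U hU]; omega)
          rwa [hcard U hU] at h)
        rwa [show 2 ^ k + (S.card - 2 ^ k + 1) = S.card + 1 by omega] at this

/-- a sum over a set with a fixed point free involution preserving the summand -/
lemma dvd_sum_of_invol {α : Type*} [DecidableEq α] (s : Finset α) (g : α → ℤ) (θ : α → α) (m : ℕ)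
    (hmem : ∀ a ∈ s, θ a ∈ s) (hinv : ∀ a ∈ s, θ (θ a) = a) (hne : ∀ a ∈ s, θ a ≠ a)
    (hg : ∀ a ∈ s, g (θ a) = g a) (hd : ∀ a ∈ s, (2 : ℤ) ^ m ∣ g a) :
    (2 : ℤ) ^ (m + 1) ∣ ∑ a ∈ s, g a := by
  choose! q hq using hd
  have h1 : ∑ a ∈ s, g a = 2 ^ m * ∑ a ∈ s, q a := by
    rw [Finset.mul_sum]
    exact Finset.sum_congr rfl hq
  have hqq : ∀ a ∈ s, q (θ a) = q a := by
    intro a ha
    have h2 := hq a ha
    have h3 := hq (θ a) (hmem a ha)
    rw [hg a ha, h2] at h3
    exact (mul_left_cancel₀ (pow_ne_zero m (by norm_num)) h3).symm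
  have h4 : ((∑ a ∈ s, q a : ℤ) : ZMod 2) = 0 := by
    push_cast
    refine Finset.sum_involution (fun a _ => θ a) ?_ ?_ ?_ ?_
    · intro a ha
      rw [hqq a ha]
      exact CharTwo.add_self_eq_zero _
    · intro a ha _
      exact hne a ha
    · intro a ha
      exact hmem a ha
    · intro a ha
      exact hinv a ha
  have h5 : (2 : ℤ) ∣ ∑ a ∈ s, q a := (ZMod.intCast_zmod_eq_zero_iff_dvd _ 2).mp h4
  rw [h1, pow_succ]
  exact mul_dvd_mul_left _ h5

end H28PM
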