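import Pool.Agent.Lib_helper28.PM.Psi2

set_option autoImplicit false

namespace H28PM

open Finset

variable {ι : Type*} [DecidableEq ι]

lemma psi_congr_on (b b' : ι → ι → ℤ) (m : ℕ) : ∀ S : Finset ι, S.card = m →
    (∀ u ∈ S, ∀ v ∈ S, b u v = b' u v) → psi b S = psi b' S := by
  induction m with
  | zero =>
    intro S hS _
    rw [Finset.card_eq_zero.mp hS, psi_empty, psi_empty]
  | succ m ih =>
    intro S hS h
    have hne : S.Nonempty := by rw [← Finset.card_pos]; omega
    rw [psi_rec b hne, psi_rec b' hne]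
    refine Finset.sum_congr rfl fun j hj => ?_
    rw [ih (S.erase j) (by rw [Finset.card_erase_of_mem hj]; omega)
      (fun u hu v hv => h u (Finset.mem_of_mem_erase hu) v (Finset.mem_of_mem_erase hv))]
    congr 1
    exact Finset.prod_congr rfl fun v hv => h j hj v (Finset.mem_of_mem_erase hv)

lemma psi_map (b : ι → ι → ℤ) (θ : Equiv.Perm ι) (hθ : ∀ u v, b (θ u) (θ v) = b u v) (m : ℕ) :
    ∀ S : Finset ι, S.card = m → psi b (S.map θ.toEmbedding) = psi b S := by
  induction m with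
  | zero =>
    intro S hS
    rw [Finset.card_eq_zero.mp hS]
    simp
  | succ m ih =>
    intro S hS
    have hne : S.Nonempty := by rw [← Finset.card_pos]; omega
    have hne' : (S.map θ.toEmbedding).Nonempty := hne.map
    rw [psi_rec b hne, psi_rec b hne', Finset.sum_map]
    refine Finset.sum_congr rfl fun j hj => ?_
    have h1 : (S.map θ.toEmbedding).erase (θ.toEmbedding j) = (S.erase j).map θ.toEmbedding := by
      rw [Finset.map_erase]
    rw [h1, ih (S.erase j) (by rw [Finset.card_erase_of_mem hj]; omega), Finset.prod_map]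
    congr 1
    exact Finset.prod_congr rfl fun v _ => hθ j v

omit [DecidableEq ι] in
lemma BB_map (b : ι → ι → ℤ) (θ : Equiv.Perm ι) (hθ : ∀ u v, b (θ u) (θ v) = b u v)
    (U V : Finset ι) : BB b (U.map θ.toEmbedding) (V.map θ.toEmbedding) = BB b U V := by
  unfold BB
  rw [Finset.prod_map]
  refine Finset.prod_congr rfl fun u _ => ?_
  rw [Finset.prod_map]
  exact Finset.prod_congr rfl fun v _ => hθ u v

/-- a fixed point free involution on a finset of even cardinality, extended by the identity -/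
lemma exists_invol [Fintype ι] (W : Finset ι) (hW : Even W.card) :
    ∃ θ : Equiv.Perm ι, (∀ x, θ (θ x) = x) ∧ (∀ w ∈ W, θ w ∈ W ∧ θ w ≠ w) ∧
      (∀ x, x ∉ W → θ x = x) := by
  obtain ⟨m, hm⟩ := hW
  have hc : Fintype.card W = Fintype.card (Fin m × Fin 2) := by
    simp [hm]; ring
  let e : W ≃ Fin m × Fin 2 := Fintype.equivOfCardEq hc
  let σ : Equiv.Perm (Fin m × Fin 2) := Equiv.prodCongr (Equiv.refl _) (Equiv.swap 0 1)
  have hσ : ∀ p, σ (σ p) = p := by
    rintro ⟨p, q⟩
    simp [σ]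
  have hσne : ∀ p, σ p ≠ p := by
    rintro ⟨p, q⟩ h
    simp only [σ, Equiv.prodCongr_apply, Prod.map, Equiv.refl_apply, Prod.mk.injEq] at h
    have := h.2
    revert this
    fin_cases q <;> simp
  let τ : Equiv.Perm W := (e.trans σ).trans e.symm
  refine ⟨τ.ofSubtype, ?_, ?_, ?_⟩
  · intro x
    by_cases hx : x ∈ W
    · rw [Equiv.Perm.ofSubtype_apply_of_mem τ hx]
      rw [Equiv.Perm.ofSubtype_apply_of_mem τ (τ ⟨x, hx⟩).2]
      simp [τ, hσ]
    · rw [Equiv.Perm.ofSubtype_apply_of_not_mem τ hx, Equiv.Perm.ofSubtype_apply_of_not_mem τ hx]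
  · intro w hw
    rw [Equiv.Perm.ofSubtype_apply_of_mem τ hw]
    refine ⟨(τ ⟨w, hw⟩).2, fun h => ?_⟩
    have h' : τ ⟨w, hw⟩ = ⟨w, hw⟩ := Subtype.ext h
    have h'' : σ (e ⟨w, hw⟩) = e ⟨w, hw⟩ := by
      have := congrArg e h'
      simpa [τ] using this
    exact hσne _ h''
  · intro x hx
    exact Equiv.Perm.ofSubtype_apply_of_not_mem τ hx

/-- hypotheses for the removal of one level -/
structure Step (b b' : ι → ι → ℤ) (Z : Finset ι) : Prop where
  hb : PM1 b
  hb' : PM1 b'
  z1 : ∀ u v, v ∉ Z → b u v = b' u v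
  z2 : ∀ u v, v ∈ Z → b' u v = 1
  z2' : ∀ u v v', v ∈ Z → v' ∈ Z → b u v = b u v'
  z3 : ∀ u v, u ∈ Z → v ∉ Z → b u v = 1
  z4 : ∀ u u' v, u ∈ Z → u' ∈ Z → v ∈ Z → b u v = b u' v

lemma Step.prod_eq {b b' : ι → ι → ℤ} {Z : Finset ι} (h : Step b b' Z) (u : ι) (V : Finset ι)
    (hV : Even (V ∩ Z).card) : ∏ v ∈ V, b u v = ∏ v ∈ V, b' u v := by
  have h1 : ∀ f : ι → ℤ, ∏ v ∈ V, f v = (∏ v ∈ V ∩ Z, f v) * ∏ v ∈ V \ Z, f v := by
    intro f
    rw [← Finset.prod_union (Finset.disjoint_sdiff_inter V Z).symm]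
    rw [Finset.union_comm, Finset.sdiff_union_inter]
  rw [h1, h1]
  congr 1
  · rw [Finset.prod_eq_one (f := fun v => b' u v)
      (fun v hv => h.z2 u v (Finset.mem_inter.mp hv).2)]
    rcases (V ∩ Z).eq_empty_or_nonempty with he | ⟨w, hw⟩
    · rw [he]; simp
    · have h2 : ∏ v ∈ V ∩ Z, b u v = ∏ v ∈ V ∩ Z, b u w :=
        Finset.prod_congr rfl fun v hv =>
          h.z2' u v w (Finset.mem_inter.mp hv).2 (Finset.mem_inter.mp hw).2
      rw [h2, Finset.prod_const]
      rcases h.hb u w with h3 | h3 <;> rw [h3]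
      · simp
      · exact hV.neg_one_pow
  · exact Finset.prod_congr rfl fun v hv => h.z1 u v (Finset.mem_sdiff.mp hv).2

lemma Step.BB_eq {b b' : ι → ι → ℤ} {Z : Finset ι} (h : Step b b' Z) (U V : Finset ι)
    (hV : Even (V ∩ Z).card) : BB b U V = BB b' U V := by
  unfold BB
  exact Finset.prod_congr rfl fun u _ => h.prod_eq u V hV

/-- the contribution of a split -/
def gg (b : ι → ι → ℤ) (S U : Finset ι) : ℤ :=
  if BB b U (S \ U) = BB b (S \ U) U then psi b U * psi b (S \ U) else 0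

lemma psi_sub_gg {b : ι → ι → ℤ} (hb : PM1 b) (a : ℕ) (S : Finset ι) (hS : S.card = 2 * 2 ^ a)
    (s0 : ι) (hs0 : s0 ∈ S) :
    (2 : ℤ) ^ (2 ^ (a + 1)) ∣ psi b S -
      2 * ∑ U ∈ (S.powersetCard (2 ^ a)).filter (fun U => s0 ∈ U), gg b S U := by
  have hpos : 0 < 2 ^ a := by positivity
  rw [psi_split b (2 ^ a) S (by omega), sum_half S (2 ^ a) hS s0 hs0, Finset.mul_sum,
    ← Finset.sum_sub_distrib]
  refine Finset.dvd_sum fun U hU => ?_
  simp only [Finset.mem_filter, Finset.mem_powersetCard] at hU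
  obtain ⟨⟨h1, h2⟩, h3⟩ := hU
  have hc : (S \ U).card = 2 ^ a := by rw [Finset.card_sdiff_of_subset h1, hS, h2]; omega
  rw [Finset.sdiff_sdiff_eq_self h1]
  obtain ⟨p, hp⟩ := psi_pow_dvd hb a U h2
  obtain ⟨q, hq⟩ := psi_pow_dvd hb a (S \ U) hc
  have h4 : (4 : ℤ) ∣ BB b U (S \ U) + BB b (S \ U) U -
      2 * (if BB b U (S \ U) = BB b (S \ U) U then 1 else 0) := by
    rcases BB_pm hb U (S \ U) with h | h <;> rcases BB_pm hb (S \ U) U with h' | h' <;>
      rw [h, h'] <;> norm_num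
  obtain ⟨e, he⟩ := h4
  have h5 : BB b U (S \ U) * psi b U * psi b (S \ U) + BB b (S \ U) U * psi b (S \ U) * psi b U
      - 2 * gg b S U
      = (BB b U (S \ U) + BB b (S \ U) U -
      2 * (if BB b U (S \ U) = BB b (S \ U) U then 1 else 0)) * psi b U * psi b (S \ U) := by
    unfold gg
    split_ifs <;> ring
  rw [h5, he, hp, hq]
  refine ⟨e * p * q, ?_⟩
  have h2e : (2 : ℤ) ^ (2 ^ (a + 1)) = 4 * 2 ^ (2 ^ a - 1) * 2 ^ (2 ^ a - 1) := by
    rw [show (4 : ℤ) = 2 ^ 2 by norm_num, ← pow_add, ← pow_add]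
    congr 1
    rw [pow_succ]; omega
  rw [h2e]; ring

lemma gg_dvd {b : ι → ι → ℤ} (hb : PM1 b) (a : ℕ) (S U : Finset ι)
    (h2 : U.card = 2 ^ a) (hc : (S \ U).card = 2 ^ a) :
    (2 : ℤ) ^ (2 ^ (a + 1) - 2) ∣ gg b S U := by
  unfold gg
  split_ifs
  · have h2e : (2 : ℤ) ^ (2 ^ (a + 1) - 2) = 2 ^ (2 ^ a - 1) * 2 ^ (2 ^ a - 1) := by
      rw [← pow_add]
      congr 1
      have hpos : 0 < 2 ^ a := by positivity
      rw [pow_succ]; omega
    rw [h2e]
    exact mul_dvd_mul (psi_pow_dvd hb a U h2) (psi_pow_dvd hb a _ hc)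
  · exact dvd_zero _

lemma odd_sum_dvd [Fintype ι] {b : ι → ι → ℤ} (hb : PM1 b) {Z : Finset ι} (a : ℕ) (ha : 1 ≤ a)
    (S : Finset ι)
    (hinv : ∀ θ : Equiv.Perm ι, (∀ w ∈ S ∩ Z, θ w ∈ S ∩ Z) → (∀ x, x ∉ S ∩ Z → θ x = x) →
      ∀ u v, b (θ u) (θ v) = b u v)
    (hS : S.card = 2 * 2 ^ a) (hev : Even (S ∩ Z).card)
    (s0 : ι) (hs0 : s0 ∈ S) (hs0Z : s0 ∉ Z) :
    (2 : ℤ) ^ (2 ^ (a + 1) - 1) ∣
      ∑ U ∈ ((S.powersetCard (2 ^ a)).filter (fun U => s0 ∈ U)).filter
        (fun U => ¬ Even (U ∩ Z).card), gg b S U := by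
  obtain ⟨θ, hθ1, hθ2, hθ3⟩ := exists_invol (S ∩ Z) hev
  have hθb := hinv θ (fun w hw => (hθ2 w hw).1) hθ3
  have hpos : 1 < 2 ^ a := Nat.one_lt_two_pow (by omega)
  have he : 2 ^ (a + 1) - 1 = (2 ^ (a + 1) - 2) + 1 := by
    have : 2 ^ (a + 1) = 2 * 2 ^ a := by rw [pow_succ]; ring
    omega
  have hθS : S.map θ.toEmbedding = S := by
    apply Finset.eq_of_subset_of_card_le
    · intro x hx
      rw [Finset.mem_map] at hx
      obtain ⟨y, hy, rfl⟩ := hx
      by_cases hyZ : y ∈ S ∩ Z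
      · exact (Finset.mem_inter.mp (hθ2 y hyZ).1).1
      · show θ y ∈ S
        rw [hθ3 y hyZ]; exact hy
    · rw [Finset.card_map]
  have hmap2 : ∀ U : Finset ι, (U.map θ.toEmbedding).map θ.toEmbedding = U := by
    intro U
    ext x
    simp only [Finset.mem_map, Equiv.coe_toEmbedding]
    constructor
    · rintro ⟨y, ⟨z, hz, rfl⟩, rfl⟩
      rwa [hθ1]
    · intro hx
      exact ⟨θ x, ⟨x, hx, rfl⟩, hθ1 x⟩
  have hmem : ∀ (U : Finset ι) (x : ι), x ∈ U.map θ.toEmbedding ↔ θ x ∈ U := by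
    intro U x
    rw [Finset.mem_map]
    constructor
    · rintro ⟨y, hy, rfl⟩
      show θ (θ y) ∈ U
      rwa [hθ1]
    · intro hx
      exact ⟨θ x, hx, hθ1 x⟩
  have hs0' : θ s0 = s0 := hθ3 s0 (fun h => hs0Z (Finset.mem_inter.mp h).2)
  rw [he]
  apply dvd_sum_of_invol _ _ (fun U => U.map θ.toEmbedding)
  · intro U hU
    simp only [Finset.mem_filter, Finset.mem_powersetCard] at hU ⊢
    obtain ⟨⟨⟨h1, h2⟩, h3⟩, h4⟩ := hU
    refine ⟨⟨⟨?_, by rw [Finset.card_map]; exact h2⟩, ?_⟩, ?_⟩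
    · rw [← hθS]
      exact Finset.map_subset_map.mpr h1
    · rw [hmem, hs0']; exact h3
    · have : (U.map θ.toEmbedding) ∩ Z = (U ∩ Z).map θ.toEmbedding := by
        ext x
        rw [Finset.mem_inter, hmem, hmem, Finset.mem_inter]
        constructor
        · rintro ⟨hx, hxZ⟩
          refine ⟨hx, ?_⟩
          by_cases hxS : x ∈ S ∩ Z
          · exact (Finset.mem_inter.mp (hθ2 x hxS).1).2
          · rw [hθ3 x hxS]; exact hxZ
        · rintro ⟨hx, hxZ⟩
          refine ⟨hx, ?_⟩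
          by_cases hxS : x ∈ S ∩ Z
          · exact (Finset.mem_inter.mp hxS).2
          · rwa [hθ3 x hxS] at hxZ
      rw [this, Finset.card_map]
      exact h4
  · intro U _
    exact hmap2 U
  · intro U hU
    simp only [Finset.mem_filter, Finset.mem_powersetCard] at hU
    obtain ⟨⟨⟨h1, h2⟩, h3⟩, h4⟩ := hU
    intro hfix
    -- U ∩ Z is θ-invariant, hence even
    apply h4
    have hinvol : ((U ∩ Z).card : ZMod 2) = 0 := by
      have hcs : ((U ∩ Z).card : ZMod 2) = ∑ x ∈ U ∩ Z, (1 : ZMod 2) := by simp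
      rw [hcs]
      refine Finset.sum_involution (fun x _ => θ x) ?_ ?_ ?_ ?_
      · intro x _
        exact CharTwo.add_self_eq_zero _
      · intro x hx _
        have hxS : x ∈ S ∩ Z :=
          Finset.mem_inter.mpr ⟨h1 (Finset.mem_inter.mp hx).1, (Finset.mem_inter.mp hx).2⟩
        exact (hθ2 x hxS).2
      · intro x hx
        have hxS : x ∈ S ∩ Z :=
          Finset.mem_inter.mpr ⟨h1 (Finset.mem_inter.mp hx).1, (Finset.mem_inter.mp hx).2⟩
        refine Finset.mem_inter.mpr ⟨?_, (Finset.mem_inter.mp (hθ2 x hxS).1).2⟩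
        rw [← hmem]
        have := (Finset.mem_inter.mp hx).1
        rwa [← hfix] at this
      · intro x _
        exact hθ1 x
    have := (ZMod.natCast_eq_zero_iff _ _).mp hinvol
    exact (even_iff_two_dvd).mpr this
  · intro U hU
    have h5 : S \ U.map θ.toEmbedding = (S \ U).map θ.toEmbedding := by
      ext x
      rw [Finset.mem_sdiff, hmem, hmem, Finset.mem_sdiff]
      have : x ∈ S ↔ θ x ∈ S := by rw [← hmem, hθS]
      rw [this]
    unfold gg
    simp only [h5, BB_map b θ hθb, psi_map b θ hθb _ _ rfl]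
  · intro U hU
    simp only [Finset.mem_filter, Finset.mem_powersetCard] at hU
    obtain ⟨⟨⟨h1, h2⟩, h3⟩, h4⟩ := hU
    exact gg_dvd hb a S U h2 (by rw [Finset.card_sdiff_of_subset h1, hS, h2]; omega)

/-- removing one level does not change `psi` modulo `2 ^ |S|` -/
theorem step_psi [Fintype ι] {b b' : ι → ι → ℤ} {Z : Finset ι} (h : Step b b' Z) (a : ℕ) :
    ∀ S : Finset ι, S.card = 2 ^ a → Even (S ∩ Z).card →
      (2 : ℤ) ^ (2 ^ a) ∣ psi b S - psi b' S := by
  induction a with
  | zero =>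
    intro S hS _
    obtain ⟨j, rfl⟩ := Finset.card_eq_one.mp (by simpa using hS)
    rw [psi_singleton, psi_singleton, sub_self]
    exact dvd_zero _
  | succ a ih =>
    intro S hS hev
    have hpos : 0 < 2 ^ a := by positivity
    have hS' : S.card = 2 * 2 ^ a := by rw [hS, pow_succ]; ring
    have h2a : 2 ^ (a + 1) = 2 * 2 ^ a := by rw [pow_succ]; ring
    -- it suffices to compare the `gg` sums
    have main : ∀ s0 ∈ S, (2 : ℤ) ^ (2 ^ (a + 1) - 1) ∣
        (∑ U ∈ (S.powersetCard (2 ^ a)).filter (fun U => s0 ∈ U), gg b S U) -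
        (∑ U ∈ (S.powersetCard (2 ^ a)).filter (fun U => s0 ∈ U), gg b' S U) →
        (2 : ℤ) ^ (2 ^ (a + 1)) ∣ psi b S - psi b' S := by
      intro s0 hs0 hd
      have e1 := psi_sub_gg h.hb a S hS' s0 hs0
      have e2 := psi_sub_gg h.hb' a S hS' s0 hs0
      have e3 : (2 : ℤ) ^ (2 ^ (a + 1)) ∣ 2 * ((∑ U ∈ (S.powersetCard (2 ^ a)).filter
          (fun U => s0 ∈ U), gg b S U) -
        (∑ U ∈ (S.powersetCard (2 ^ a)).filter (fun U => s0 ∈ U), gg b' S U)) := by
        have : (2 : ℤ) ^ (2 ^ (a + 1)) = 2 * 2 ^ (2 ^ (a + 1) - 1) := by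
          rw [← pow_succ']; congr 1; omega
        rw [this]
        exact mul_dvd_mul_left 2 hd
      have e4 := dvd_add (dvd_sub e1 e2) e3
      have e5 : ∀ p q r s : ℤ, p - 2 * q - (r - 2 * s) + 2 * (q - s) = p - r := by
        intros; ring
      rwa [e5] at e4
    -- even part
    have heven : ∀ s0 ∈ S, (2 : ℤ) ^ (2 ^ (a + 1) - 1) ∣
        (∑ U ∈ ((S.powersetCard (2 ^ a)).filter (fun U => s0 ∈ U)).filter
          (fun U => Even (U ∩ Z).card), gg b S U) -
        (∑ U ∈ ((S.powersetCard (2 ^ a)).filter (fun U => s0 ∈ U)).filter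
          (fun U => Even (U ∩ Z).card), gg b' S U) := by
      intro s0 hs0
      rw [← Finset.sum_sub_distrib]
      refine Finset.dvd_sum fun U hU => ?_
      simp only [Finset.mem_filter, Finset.mem_powersetCard] at hU
      obtain ⟨⟨⟨h1, h2⟩, h3⟩, h4⟩ := hU
      have hc : (S \ U).card = 2 ^ a := by
        rw [Finset.card_sdiff_of_subset h1, hS', h2]; omega
      have hev2 : Even ((S \ U) ∩ Z).card := by
        have e1 : (S ∩ Z).card = (U ∩ Z).card + ((S \ U) ∩ Z).card := by
          rw [← Finset.card_union_of_disjoint]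
          · congr 1
            ext x
            simp only [Finset.mem_inter, Finset.mem_union, Finset.mem_sdiff]
            constructor
            · rintro ⟨hx, hz⟩
              by_cases hxU : x ∈ U
              · exact Or.inl ⟨hxU, hz⟩
              · exact Or.inr ⟨⟨hx, hxU⟩, hz⟩
            · rintro (⟨hx, hz⟩ | ⟨⟨hx, _⟩, hz⟩)
              · exact ⟨h1 hx, hz⟩
              · exact ⟨hx, hz⟩
          · rw [Finset.disjoint_left]
            intro x hx hx'
            simp only [Finset.mem_inter, Finset.mem_sdiff] at hx hx'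
            exact hx'.1.2 hx.1
        rw [e1] at hev
        exact (Nat.even_add.mp hev).mp h4
      have i1 := ih U h2 h4
      have i2 := ih (S \ U) hc hev2
      have d1 := psi_pow_dvd h.hb a (S \ U) hc
      have d2 := psi_pow_dvd h.hb' a U h2
      unfold gg
      rw [h.BB_eq U (S \ U) hev2, h.BB_eq (S \ U) U h4]
      split_ifs
      · have e : psi b U * psi b (S \ U) - psi b' U * psi b' (S \ U)
            = (psi b U - psi b' U) * psi b (S \ U)
              + psi b' U * (psi b (S \ U) - psi b' (S \ U)) := by ring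
        rw [e]
        have e2 : (2 : ℤ) ^ (2 ^ (a + 1) - 1) = 2 ^ (2 ^ a) * 2 ^ (2 ^ a - 1) := by
          rw [← pow_add]; congr 1; omega
        rw [e2]
        refine dvd_add (mul_dvd_mul i1 d1) ?_
        rw [mul_comm ((2 : ℤ) ^ (2 ^ a))]
        exact mul_dvd_mul d2 i2
      · rw [sub_self]; exact dvd_zero _
    -- invariance under involutions
    have hinv : ∀ θ : Equiv.Perm ι, (∀ w ∈ S ∩ Z, θ w ∈ S ∩ Z) → (∀ x, x ∉ S ∩ Z → θ x = x) →
        ∀ u v, b (θ u) (θ v) = b u v := by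
      intro θ hθ1 hθ2 u v
      have hin : ∀ x, x ∈ Z → θ x ∈ Z := by
        intro x hx
        by_cases hxS : x ∈ S ∩ Z
        · exact (Finset.mem_inter.mp (hθ1 x hxS)).2
        · rwa [hθ2 x hxS]
      have hout : ∀ x, x ∉ Z → θ x = x := fun x hx =>
        hθ2 x (fun h' => hx (Finset.mem_inter.mp h').2)
      by_cases hv : v ∈ Z
      · rw [h.z2' (θ u) (θ v) v (hin v hv) hv]
        by_cases hu : u ∈ Z
        · exact h.z4 (θ u) u v (hin u hu) hu hv
        · rw [hout u hu]
      · rw [hout v hv]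
        by_cases hu : u ∈ Z
        · rw [h.z3 (θ u) v (hin u hu) hv, h.z3 u v hu hv]
        · rw [hout u hu]
    have hinv' : ∀ θ : Equiv.Perm ι, (∀ w ∈ S ∩ Z, θ w ∈ S ∩ Z) → (∀ x, x ∉ S ∩ Z → θ x = x) →
        ∀ u v, b' (θ u) (θ v) = b' u v := by
      intro θ hθ1 hθ2 u v
      have hin : ∀ x, x ∈ Z → θ x ∈ Z := by
        intro x hx
        by_cases hxS : x ∈ S ∩ Z
        · exact (Finset.mem_inter.mp (hθ1 x hxS)).2
        · rwa [hθ2 x hxS]
      have hout : ∀ x, x ∉ Z → θ x = x := fun x hx =>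
        hθ2 x (fun h' => hx (Finset.mem_inter.mp h').2)
      by_cases hv : v ∈ Z
      · rw [h.z2 (θ u) (θ v) (hin v hv), h.z2 u v hv]
      · rw [hout v hv]
        by_cases hu : u ∈ Z
        · rw [← h.z1 (θ u) v hv, ← h.z1 u v hv, h.z3 (θ u) v (hin u hu) hv, h.z3 u v hu hv]
        · rw [hout u hu]
    by_cases hSZ : S ⊆ Z
    · rcases Nat.eq_zero_or_pos a with ha | ha
      · -- two elements
        subst ha
        obtain ⟨p, q, hpq, rfl⟩ := Finset.card_eq_two.mp (by simpa using hS)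
        have hp : p ∈ Z := hSZ (by simp)
        have hq : q ∈ Z := hSZ (by simp)
        have e1 : ∀ c : ι → ι → ℤ, psi c {p, q} = c p q + c q p := by
          intro c
          rw [psi_rec c ⟨p, by simp⟩, Finset.sum_pair hpq]
          have h1 : ({p, q} : Finset ι).erase p = {q} := by
            rw [Finset.erase_insert (by simpa using hpq)]
          have h2 : ({p, q} : Finset ι).erase q = {p} := by
            rw [Finset.pair_comm, Finset.erase_insert (by simpa using hpq.symm)]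
          rw [h1, h2, psi_singleton, psi_singleton]
          simp
        rw [e1, e1, h.z2 p q hq, h.z2 q p hp, h.z2' q p q hp hq, h.z4 q p q hq hp hq]
        rcases h.hb p q with h3 | h3 <;> rw [h3] <;> norm_num
      · obtain ⟨s0, hs0⟩ : S.Nonempty := by rw [← Finset.card_pos, hS']; omega
        apply main s0 hs0
        have hall : ∀ c : ι → ι → ℤ, ∑ U ∈ (S.powersetCard (2 ^ a)).filter (fun U => s0 ∈ U),
            gg c S U = ∑ U ∈ ((S.powersetCard (2 ^ a)).filter (fun U => s0 ∈ U)).filter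
              (fun U => Even (U ∩ Z).card), gg c S U := by
          intro c
          rw [Finset.filter_true_of_mem (s := (S.powersetCard (2 ^ a)).filter (fun U => s0 ∈ U))]
          intro U hU
          simp only [Finset.mem_filter, Finset.mem_powersetCard] at hU
          have : U ∩ Z = U := Finset.inter_eq_left.mpr (hU.1.1.trans hSZ)
          rw [this, hU.1.2]
          exact (Nat.even_pow.mpr ⟨even_two, by omega⟩)
        rw [hall, hall]
        exact heven s0 hs0
    · obtain ⟨s0, hs0, hs0Z⟩ := Finset.not_subset.mp hSZ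
      rcases Nat.eq_zero_or_pos a with ha | ha
      · -- two elements, not both in Z, so none in Z
        subst ha
        have hcard : S.card = 2 := by simpa using hS
        have hSZ0 : S ∩ Z = ∅ := by
          have h1 : (S ∩ Z).card ≤ 1 := by
            have h2 : S ∩ Z ⊆ S.erase s0 := by
              intro x hx
              rw [Finset.mem_inter] at hx
              refine Finset.mem_erase.mpr ⟨fun h' => hs0Z (h' ▸ hx.2), hx.1⟩
            have h3 := Finset.card_le_card h2
            rw [Finset.card_erase_of_mem hs0, hcard] at h3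
            exact h3
          rw [← Finset.card_eq_zero]
          obtain ⟨m, hm⟩ := hev
          omega
        rw [psi_congr_on b b' _ S rfl, sub_self]
        · exact dvd_zero _
        · intro u _ v hv
          apply h.z1
          intro hvZ
          have : v ∈ S ∩ Z := Finset.mem_inter.mpr ⟨hv, hvZ⟩
          rw [hSZ0] at this
          simp at this
      · apply main s0 hs0
        have hsplit : ∀ c : ι → ι → ℤ, ∑ U ∈ (S.powersetCard (2 ^ a)).filter (fun U => s0 ∈ U),
            gg c S U = ∑ U ∈ ((S.powersetCard (2 ^ a)).filter (fun U => s0 ∈ U)).filter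
              (fun U => Even (U ∩ Z).card), gg c S U +
              ∑ U ∈ ((S.powersetCard (2 ^ a)).filter (fun U => s0 ∈ U)).filter
              (fun U => ¬ Even (U ∩ Z).card), gg c S U := by
          intro c
          rw [Finset.sum_filter_add_sum_filter_not]
        rw [hsplit b, hsplit b']
        have o1 := odd_sum_dvd h.hb (Z := Z) a ha S hinv hS' hev s0 hs0 hs0Z
        have o2 := odd_sum_dvd h.hb' (Z := Z) a ha S hinv' hS' hev s0 hs0 hs0Z
        have e5 : ∀ p q r s : ℤ, p + q - (r + s) = (p - r) + (q - s) := by intros; ring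
        rw [e5]
        exact dvd_add (heven s0 hs0) (dvd_sub o1 o2)

end H28PM
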